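import Mathlib

/-!
Helpers for problem MP_249799_al: commutative subalgebras with a nontrivial automorphism
in a division ring that is algebraic over its centre.
-/

set_option autoImplicit false

namespace Pool.Agent.Helper4.GAL

open Algebra

section

variable {F D : Type*} [Field F] [DivisionRing D] [Algebra F D]

/-- `D` has a commutative `F`-subalgebra with an `F`-automorphism other than the identity. -/
def Good (F D : Type*) [Field F] [DivisionRing D] [Algebra F D] : Prop :=
  ∃ K : Subalgebra F D, (∀ x ∈ K, ∀ y ∈ K, x * y = y * x) ∧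
    ∃ σ : K ≃ₐ[F] K, σ ≠ AlgEquiv.refl

/-- An element of `D` that normalises a commutative subalgebra without centralising it. -/
theorem good_of_conj (halg : Algebra.IsAlgebraic F D) (K : Subalgebra F D)
    (hK : ∀ x ∈ K, ∀ y ∈ K, x * y = y * x) (e : D) (he : e ≠ 0)
    (h : ∀ x ∈ K, e * x * e⁻¹ ∈ K) (b : D) (hb : b ∈ K) (hne : e * b * e⁻¹ ≠ b) :
    Good F D := by
  refine ⟨K, hK, ?_⟩
  let φ : K →ₐ[F] K :=
    { toFun := fun x => ⟨e * x * e⁻¹, h x x.2⟩
      map_one' := by
        apply Subtype.ext
        simp [he]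
      map_mul' := fun x y => by
        apply Subtype.ext
        show e * ((x : D) * y) * e⁻¹ = (e * x * e⁻¹) * (e * y * e⁻¹)
        have : e⁻¹ * e = 1 := inv_mul_cancel₀ he
        calc e * ((x : D) * y) * e⁻¹ = e * x * 1 * y * e⁻¹ := by noncomm_ring
          _ = e * x * (e⁻¹ * e) * y * e⁻¹ := by rw [this]
          _ = (e * x * e⁻¹) * (e * y * e⁻¹) := by noncomm_ring
      map_zero' := by
        apply Subtype.ext
        simp
      map_add' := fun x y => by
        apply Subtype.ext
        show e * ((x : D) + y) * e⁻¹ = (e * x * e⁻¹) + (e * y * e⁻¹)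
        noncomm_ring
      commutes' := fun r => by
        apply Subtype.ext
        show e * (algebraMap F D r) * e⁻¹ = algebraMap F D r
        rw [← Algebra.commutes, mul_assoc, mul_inv_cancel₀ he, mul_one] }
  let _ : CommRing K := { (inferInstance : Ring K) with
    mul_comm := fun x y => Subtype.ext (hK x x.2 y y.2) }
  let _ : Field K := Field.ofIsUnitOrEqZero (fun a => by
    by_cases ha : a = 0
    · exact Or.inr ha
    · left
      have h1 : IsIntegral F (a : D) := (halg.isAlgebraic (a : D)).isIntegral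
      have h2 : ((a : D))⁻¹ ∈ K := h1.inv_mem a.2
      have ha' : (a : D) ≠ 0 := fun h => ha (Subtype.ext h)
      exact ⟨⟨a, ⟨_, h2⟩, Subtype.ext (mul_inv_cancel₀ ha'), Subtype.ext (inv_mul_cancel₀ ha')⟩, rfl⟩)
  have : Algebra.IsAlgebraic F K := ⟨fun x => by
    have := halg.isAlgebraic (x : D)
    exact (isAlgebraic_algHom_iff K.val Subtype.val_injective).1 this⟩
  refine ⟨AlgEquiv.ofBijective φ (Algebra.IsAlgebraic.algHom_bijective φ), ?_⟩
  intro hcon
  apply hne
  have := congrArg (fun τ : K ≃ₐ[F] K => ((τ ⟨b, hb⟩ : K) : D)) hcon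
  exact this

/-- Version of `good_of_conj` for the subalgebra generated by a commuting set. -/
theorem good_of_conj_set (halg : Algebra.IsAlgebraic F D) (S : Set D)
    (hS : ∀ x ∈ S, ∀ y ∈ S, x * y = y * x) (e : D) (he : e ≠ 0)
    (h : ∀ x ∈ S, ∃ y ∈ Algebra.adjoin F S, e * x = y * e) (b : D) (hb : b ∈ S)
    (hne : e * b ≠ b * e) : Good F D := by
  refine good_of_conj halg (Algebra.adjoin F S) ?_ e he ?_ b (Algebra.subset_adjoin hb) ?_
  · intro x hx y hy
    have := (Algebra.isMulCommutative_adjoin F hS).is_comm.comm ⟨x, hx⟩ ⟨y, hy⟩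
    exact congrArg Subtype.val this
  · intro x hx
    refine Algebra.adjoin_induction (p := fun x _ => e * x * e⁻¹ ∈ Algebra.adjoin F S)
      ?_ ?_ ?_ ?_ hx
    · intro x hx
      obtain ⟨y, hy, hxy⟩ := h x hx
      rw [hxy, mul_assoc, mul_inv_cancel₀ he, mul_one]
      exact hy
    · intro r
      rw [← Algebra.commutes, mul_assoc, mul_inv_cancel₀ he, mul_one]
      exact Subalgebra.algebraMap_mem _ r
    · intro x y _ _ h1 h2
      have : e * (x + y) * e⁻¹ = e * x * e⁻¹ + e * y * e⁻¹ := by noncomm_ring
      rw [this]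
      exact Subalgebra.add_mem _ h1 h2
    · intro x y _ _ h1 h2
      have h3 : e⁻¹ * e = 1 := inv_mul_cancel₀ he
      have : e * (x * y) * e⁻¹ = (e * x * e⁻¹) * (e * y * e⁻¹) := by
        calc e * (x * y) * e⁻¹ = e * x * 1 * y * e⁻¹ := by noncomm_ring
          _ = e * x * (e⁻¹ * e) * y * e⁻¹ := by rw [h3]
          _ = (e * x * e⁻¹) * (e * y * e⁻¹) := by noncomm_ring
      rw [this]
      exact Subalgebra.mul_mem _ h1 h2
  · intro hcon
    apply hne
    have : e * b * e⁻¹ * e = b * e := by rw [hcon]
    rwa [mul_assoc, inv_mul_cancel₀ he, mul_one] at this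

/-- Version of `good_of_conj` for the subalgebra generated by one element. -/
theorem good_of_conj_one (halg : Algebra.IsAlgebraic F D) (b b' e : D) (he : e ≠ 0)
    (h : e * b = b' * e) (hb' : b' ∈ Algebra.adjoin F {b}) (hne : b' ≠ b) : Good F D := by
  refine good_of_conj_set halg {b} ?_ e he ?_ b rfl ?_
  · intro x hx y hy
    rw [Set.mem_singleton_iff.1 hx, Set.mem_singleton_iff.1 hy]
  · intro x hx
    rw [Set.mem_singleton_iff.1 hx]
    exact ⟨b', hb', h⟩
  · intro hcon
    rw [h] at hcon
    exact hne (mul_right_cancel₀ he hcon)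

/-- A two-sided functional identity with independent right coefficients is trivial. -/
theorem indep (hcen : ∀ x : D, (∀ y : D, y * x = x * y) → x ∈ Set.range (algebraMap F D))
    {ι : Type*} [DecidableEq ι] (v : ι → D) (hv : LinearIndependent F v) (s : Finset ι) :
    ∀ u : ι → D, (∀ x : D, ∑ i ∈ s, u i * x * v i = 0) → ∀ i ∈ s, u i = 0 := by
  induction s using Finset.strongInduction with
  | H s ih =>
    intro u hu
    by_contra hcon
    push Not at hcon
    obtain ⟨i0, hi0, hui0⟩ := hcon
    -- every normalised coefficient is central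
    have hcentral : ∀ i ∈ s, ∀ y : D, y * ((u i0)⁻¹ * u i) = ((u i0)⁻¹ * u i) * y := by
      intro i hi y
      by_cases hii : i = i0
      · rw [hii, inv_mul_cancel₀ hui0, mul_one, one_mul]
      · have hsub : s.erase i0 ⊂ s := Finset.erase_ssubset hi0
        have := ih (s.erase i0) hsub
          (fun j => y * ((u i0)⁻¹ * u j) - ((u i0)⁻¹ * u j) * y) ?_ i
          (Finset.mem_erase.2 ⟨hii, hi⟩)
        · exact sub_eq_zero.1 this
        · intro x
          have h1 := hu x
          have h2 := hu (y * x)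
          have h3 : ∑ j ∈ s, (y * ((u i0)⁻¹ * u j) - ((u i0)⁻¹ * u j) * y) * x * v j = 0 := by
            have e1 : ∑ j ∈ s, (y * ((u i0)⁻¹ * u j) - ((u i0)⁻¹ * u j) * y) * x * v j
                = y * (u i0)⁻¹ * (∑ j ∈ s, u j * x * v j)
                  - (u i0)⁻¹ * (∑ j ∈ s, u j * (y * x) * v j) := by
              rw [Finset.mul_sum, Finset.mul_sum, ← Finset.sum_sub_distrib]
              refine Finset.sum_congr rfl fun j _ => ?_
              noncomm_ring
            rw [e1, h1, h2, mul_zero, mul_zero, sub_zero]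
          rw [← Finset.add_sum_erase s _ hi0] at h3
          have h4 : (y * ((u i0)⁻¹ * u i0) - ((u i0)⁻¹ * u i0) * y) * x * v i0 = 0 := by
            rw [inv_mul_cancel₀ hui0, mul_one, one_mul, sub_self, zero_mul, zero_mul]
          rw [h4, zero_add] at h3
          exact h3
    have hrange : ∀ i, ∃ f : F, i ∈ s → algebraMap F D f = (u i0)⁻¹ * u i := by
      intro i
      by_cases hi : i ∈ s
      · obtain ⟨f, hf⟩ := hcen _ (hcentral i hi)
        exact ⟨f, fun _ => hf⟩
      · exact ⟨0, fun h => absurd h hi⟩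
    choose f hf using hrange
    have h1 : ∑ i ∈ s, f i • v i = 0 := by
      have h2 := hu 1
      have h3 : (u i0)⁻¹ * ∑ i ∈ s, u i * 1 * v i = 0 := by rw [h2, mul_zero]
      rw [Finset.mul_sum] at h3
      rw [← h3]
      refine Finset.sum_congr rfl fun i hi => ?_
      rw [Algebra.smul_def, hf i hi, mul_one, mul_assoc]
    have h2 := linearIndependent_iff'.1 hv s f h1 i0 hi0
    have h3 := hf i0 hi0
    rw [h2, map_zero, inv_mul_cancel₀ hui0] at h3
    exact zero_ne_one h3

end

end Pool.Agent.Helper4.GAL
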