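import Pool.Agent.Helper4.GAL.Quad

/-!
Helpers for problem MP_249799_al: elements of degree three.
-/

set_option autoImplicit false

namespace Pool.Agent.Helper4.GAL

open Algebra Polynomial

section

variable {F D : Type*} [Field F] [DivisionRing D] [Algebra F D]

theorem two_cast_ne (h : (2 : F) ≠ 0) : (2 : D) ≠ 0 := by
  intro h0
  apply h
  apply (algebraMap F D).injective
  rw [map_ofNat, map_zero]
  exact h0

theorem three_cast_ne (h : (3 : F) ≠ 0) : (3 : D) ≠ 0 := by
  intro h0
  apply h
  apply (algebraMap F D).injective
  rw [map_ofNat, map_zero]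
  exact h0

theorem two_cast_eq (h : (2 : F) = 0) : (2 : D) = 0 := by
  have := congrArg (algebraMap F D) h
  rwa [map_ofNat, map_zero] at this

theorem three_cast_eq (h : (3 : F) = 0) : (3 : D) = 0 := by
  have := congrArg (algebraMap F D) h
  rwa [map_ofNat, map_zero] at this

/-- A noncentral root of a monic cubic gives a nontrivial automorphism. -/
theorem good_of_cubic
    (hcen : ∀ x : D, (∀ y : D, y * x = x * y) → x ∈ Set.range (algebraMap F D))
    (halg : Algebra.IsAlgebraic F D) (a : D) (ha : a ∉ Set.range (algebraMap F D))
    (c1 c2 c3 : F)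
    (hf : a * a * a - algebraMap F D c1 * (a * a) + algebraMap F D c2 * a
      - algebraMap F D c3 = 0) : Good F D := by
  obtain ⟨g, hag⟩ := exists_not_comm hcen a ha
  have hC1 : ∀ x : D, algebraMap F D c1 * x = x * algebraMap F D c1 := Algebra.commutes c1
  have hC2 : ∀ x : D, algebraMap F D c2 * x = x * algebraMap F D c2 := Algebra.commutes c2
  have hC3 : ∀ x : D, algebraMap F D c3 * x = x * algebraMap F D c3 := Algebra.commutes c3
  set C1 := algebraMap F D c1 with hC1def
  set C2 := algebraMap F D c2 with hC2def
  set C3 := algebraMap F D c3 with hC3def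
  have hg : g ≠ 0 := by
    rintro rfl
    simp at hag
  set a' := g * a * g⁻¹ with ha'
  have ha'g : a' * g = g * a := by rw [ha', mul_assoc, inv_mul_cancel₀ hg, mul_one]
  have hf' : a' * a' * a' - C1 * (a' * a') + C2 * a' - C3 = 0 := by
    have e1 : (a' * a' * a' - C1 * (a' * a') + C2 * a' - C3) * g = 0 := by
      linear_combination (norm := noncomm_ring) g * hf + a' * a' * ha'g + a' * ha'g * a
        + ha'g * a * a - C1 * a' * ha'g - C1 * ha'g * a + C2 * ha'g
        - hC1 g * a * a + hC2 g * a - hC3 g
    exact (mul_eq_zero.1 e1).resolve_right hg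
  have hk : a' - a ≠ 0 := by
    intro h0
    apply hag
    rw [← ha'g, sub_eq_zero.1 h0]
  set k := a' - a with hkdef
  set a2 := k * a' * k⁻¹ with ha2
  have ha2k : a2 * k = k * a' := by rw [ha2, mul_assoc, inv_mul_cancel₀ hk, mul_one]
  have hR : a2 * a2 + a * a2 + a * a - C1 * (a + a2) + C2 = 0 := by
    have e1 : (a2 * a2 + a * a2 + a * a - C1 * (a + a2) + C2) * k = 0 := by
      linear_combination (norm := noncomm_ring) a2 * ha2k + ha2k * a' + a * ha2k
        + hkdef * a' * a' + a * hkdef * a' + a * a * hkdef - C1 * ha2k - C1 * hkdef * a'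
        - C1 * a * hkdef + C2 * hkdef + hf' - hf
    exact (mul_eq_zero.1 e1).resolve_right hk
  -- `t` conjugates `a` to `a2`
  have ht : k * g ≠ 0 := mul_ne_zero hk hg
  have hta : k * g * a = a2 * (k * g) := by
    linear_combination (norm := noncomm_ring) - (ha2k * g) - k * ha'g
  set t := k * g with htdef
  have hf2 : a2 * a2 * a2 - C1 * (a2 * a2) + C2 * a2 - C3 = 0 := by
    have e1 : (a2 * a2 * a2 - C1 * (a2 * a2) + C2 * a2 - C3) * t = 0 := by
      linear_combination (norm := noncomm_ring) t * hf - a2 * a2 * hta - a2 * hta * a
        - hta * a * a + C1 * a2 * hta + C1 * hta * a - C2 * hta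
        - hC1 t * a * a + hC2 t * a - hC3 t
    exact (mul_eq_zero.1 e1).resolve_right ht
  have Z1 : (a * a2 - a2 * a) * a = a2 * (a * a2 - a2 * a) := by
    linear_combination (norm := noncomm_ring) hR * a - a2 * hR - hf + hf2
      + hC1 a2 * (a + a2) - hC2 a2
  have Z2 : (a * a2 - a2 * a) * a2 = (C1 - a - a2) * (a * a2 - a2 * a) := by
    linear_combination (norm := noncomm_ring) a * hR - hR * a - hC1 a * (a + a2) + hC2 a
  have Z3 : (a * a2 - a2 * a) * (C1 - a - a2) = a * (a * a2 - a2 * a) := by
    linear_combination (norm := noncomm_ring) - Z1 - Z2 - hC1 (a * a2 - a2 * a)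
  have Z4 : a * (a * a2 - a2 * a) ^ 3 = (a * a2 - a2 * a) ^ 3 * a := by
    set z := a * a2 - a2 * a
    linear_combination (norm := noncomm_ring) - (z * z * Z1) - z * Z2 * z - Z3 * z * z
  by_cases hz : a * a2 - a2 * a = 0
  · have hcomm : a * a2 = a2 * a := sub_eq_zero.1 hz
    by_cases hmem : a2 ∈ Algebra.adjoin F {a}
    · by_cases hEq : a2 = a
      · rw [hEq] at hR
        by_cases h3 : (3 : F) = 0
        · have h3D : (3 : D) = 0 := three_cast_eq h3
          have e1 : C1 * (a + a) = C2 := by
            have : (3 : D) * (a * a) = 0 := by rw [h3D, zero_mul]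
            linear_combination (norm := noncomm_ring) this - hR
          have h2 : (2 : F) ≠ 0 := by
            intro h2
            have : (1 : F) = 3 - 2 := by norm_num
            rw [h3, h2, sub_zero] at this
            exact one_ne_zero this
          have hc1 : c1 = 0 := by
            by_contra hc1
            apply ha
            refine ⟨(2 * c1)⁻¹ * c2, ?_⟩
            have hne : (algebraMap F D (2 * c1)) ≠ 0 := by
              rw [Ne, map_eq_zero]
              exact mul_ne_zero h2 hc1
            rw [map_mul, map_inv₀, ← hC2def, ← e1, inv_mul_eq_iff_eq_mul₀ hne, map_mul,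
              map_ofNat, ← hC1def]
            noncomm_ring
          have hC10 : C1 = 0 := by rw [hC1def, hc1, map_zero]
          rw [hC10, zero_mul] at e1
          have hC20 : C2 = 0 := e1.symm
          have e2 : a ^ 3 = C3 := by
            rw [hC10, hC20] at hf
            linear_combination (norm := noncomm_ring) hf
          have : Fact (Nat.Prime 3) := ⟨Nat.prime_three⟩
          have : CharP F 3 :=
            (CharP.charP_iff_prime_eq_zero Nat.prime_three).2 (by exact_mod_cast h3)
          exact good_of_nil halg 3 a g (by rw [e2, hC3]) hag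
        · have h3D : (3 : D) ≠ 0 := three_cast_ne h3
          refine good_of_quad hcen halg a ha (2 * c1 / 3) (c2 / 3) ?_
          have e1 : (3 : D) * (a * a) = 3 * (algebraMap F D (2 * c1 / 3) * a
              - algebraMap F D (c2 / 3)) := by
            have e2 : (3 : D) * algebraMap F D (2 * c1 / 3) = 2 * C1 := by
              have : (3 : D) = algebraMap F D 3 := by rw [map_ofNat]
              rw [this, ← map_mul, mul_div_cancel₀ _ h3, map_mul, map_ofNat]
            have e3 : (3 : D) * algebraMap F D (c2 / 3) = C2 := by
              have : (3 : D) = algebraMap F D 3 := by rw [map_ofNat]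
              rw [this, ← map_mul, mul_div_cancel₀ _ h3]
            rw [mul_sub, ← mul_assoc (3 : D) (algebraMap F D (2 * c1 / 3)) a, e2, e3]
            linear_combination (norm := noncomm_ring) hR
          exact mul_left_cancel₀ h3D e1
      · exact good_of_conj_one halg a a2 t ht hta hmem hEq
    · have hex : ∃ x : D, a * x = x * a ∧ a2 * x ≠ x * a2 := by
        by_contra hcon
        push Not at hcon
        exact hmem (dc hcen halg a a2 hcon)
      obtain ⟨x, hx1, hx2⟩ := hex
      have he : a2 * x - x * a2 ≠ 0 := fun h0 => hx2 (sub_eq_zero.1 h0)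
      have hq := quad_id a2 x (C1 - a) (a * a - C1 * a + C2)
        (by linear_combination (norm := noncomm_ring) hC1 x - hx1)
        (by linear_combination (norm := noncomm_ring) hC1 a2 - hcomm)
        (by linear_combination (norm := noncomm_ring) hx1 * a + a * hx1 - C1 * hx1
              - hC1 x * a + hC2 x)
        (by linear_combination (norm := noncomm_ring) hR)
      have hea : a * (a2 * x - x * a2) = (a2 * x - x * a2) * a := by
        linear_combination (norm := noncomm_ring) hcomm * x + a2 * hx1 - hx1 * a2 - x * hcomm
      set e := a2 * x - x * a2 with hedef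
      have hflip : ∀ u v : D, u * e = e * v → e⁻¹ * u = v * e⁻¹ := by
        intro u v huv
        have : e⁻¹ * (u * e) * e⁻¹ = e⁻¹ * (e * v) * e⁻¹ := by rw [huv]
        rw [← mul_assoc, mul_assoc _ e, mul_inv_cancel₀ he, mul_one, ← mul_assoc,
          inv_mul_cancel₀ he, one_mul] at this
        exact this
      have ha_mem : a ∈ Algebra.adjoin F ({a, a2} : Set D) :=
        Algebra.subset_adjoin (Set.mem_insert _ _)
      have ha2_mem : a2 ∈ Algebra.adjoin F ({a, a2} : Set D) :=
        Algebra.subset_adjoin (Set.mem_insert_of_mem _ (Set.mem_singleton _))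
      refine good_of_conj_set halg {a, a2} ?_ e⁻¹ (inv_ne_zero he) ?_ a2
        (Set.mem_insert_of_mem _ (Set.mem_singleton _)) ?_
      · rintro u (rfl | rfl) v (rfl | rfl)
        · rfl
        · exact hcomm
        · exact hcomm.symm
        · rfl
      · intro u hu
        rcases hu with hu | hu
        · rw [hu]
          exact ⟨a, ha_mem, hflip _ _ hea⟩
        · rw [Set.mem_singleton_iff.1 hu]
          exact ⟨C1 - a - a2, Subalgebra.sub_mem _
            (Subalgebra.sub_mem _ (Subalgebra.algebraMap_mem _ _) ha_mem) ha2_mem,
            hflip _ _ hq⟩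
      · intro hcon
        rw [hflip _ _ hq] at hcon
        have h4 : C1 - a - a2 = a2 := mul_right_cancel₀ (inv_ne_zero he) hcon
        by_cases h2 : (2 : F) = 0
        · have h2D : (2 : D) = 0 := two_cast_eq h2
          apply ha
          refine ⟨c1, ?_⟩
          have : (2 : D) * a2 = 0 := by rw [h2D, zero_mul]
          rw [← hC1def]
          linear_combination (norm := noncomm_ring) h4 + this
        · have h2D : (2 : D) ≠ 0 := two_cast_ne h2
          apply hmem
          have h5 : a2 = algebraMap F D (1 / 2) * (C1 - a) := by
            have e1 : (2 : D) * a2 = 2 * (algebraMap F D (1 / 2) * (C1 - a)) := by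
              have e2 : (2 : D) * algebraMap F D (1 / 2) = 1 := by
                have : (2 : D) = algebraMap F D 2 := by rw [map_ofNat]
                rw [this, ← map_mul, mul_div_cancel₀ _ h2, map_one]
              rw [← mul_assoc (2 : D) (algebraMap F D (1 / 2)) (C1 - a), e2, one_mul]
              linear_combination (norm := noncomm_ring) - h4
            exact mul_left_cancel₀ h2D e1
          rw [h5]
          exact Subalgebra.mul_mem _ (Subalgebra.algebraMap_mem _ _)
            (Subalgebra.sub_mem _ (Subalgebra.algebraMap_mem _ _)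
              (Algebra.self_mem_adjoin_singleton F a))
  · refine good_of_cube hcen halg a (a * a2 - a2 * a) ?_ Z4
    intro hcon
    rw [Z1] at hcon
    have : a = a2 := mul_right_cancel₀ hz hcon
    apply hz
    rw [← this, sub_self]

end

end Pool.Agent.Helper4.GAL
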