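import Pool.Agent.Helper4.GAL.Base

/-!
Helpers for problem MP_249799_al: the double centralizer property of one algebraic element and
the nilpotent derivation argument in characteristic `p`.
-/

set_option autoImplicit false

namespace Pool.Agent.Helper4.GAL

open Algebra Polynomial

section

variable {F D : Type*} [Field F] [DivisionRing D] [Algebra F D]

/-- Divided differences: a map from `D` to the centralizer of `a`. -/
theorem exists_trace (a : D) (ha : IsIntegral F a) :
    ∃ Q : ℕ → D, Q (minpoly F a).natDegree = 1 ∧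
      ∀ x : D, a * (∑ j ∈ Finset.range (minpoly F a).natDegree, Q (j + 1) * x * a ^ j)
        = (∑ j ∈ Finset.range (minpoly F a).natDegree, Q (j + 1) * x * a ^ j) * a := by
  set f := minpoly F a with hf
  set n := f.natDegree with hn
  let Q : ℕ → D := fun j => ∑ i ∈ Finset.range (n + 1 - j), f.coeff (i + j) • a ^ i
  have hQ : ∀ j, j ≤ n → Q j = a * Q (j + 1) + algebraMap F D (f.coeff j) := by
    intro j hj
    show ∑ i ∈ Finset.range (n + 1 - j), f.coeff (i + j) • a ^ i
      = a * (∑ i ∈ Finset.range (n + 1 - (j + 1)), f.coeff (i + (j + 1)) • a ^ i) + _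
    have : n + 1 - j = (n + 1 - (j + 1)) + 1 := by omega
    rw [this, Finset.sum_range_succ', Finset.mul_sum]
    congr 1
    · refine Finset.sum_congr rfl fun i _ => ?_
      rw [mul_smul_comm, pow_succ', add_assoc i 1 j, add_comm 1 j]
    · rw [pow_zero, Algebra.smul_def, mul_one, zero_add]
  have hQ0 : Q 0 = 0 := by
    show ∑ i ∈ Finset.range (n + 1 - 0), f.coeff (i + 0) • a ^ i = 0
    have := minpoly.aeval F a
    rw [aeval_eq_sum_range] at this
    exact this
  have hQn : Q n = 1 := by
    show ∑ i ∈ Finset.range (n + 1 - n), f.coeff (i + n) • a ^ i = 1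
    have h1 : n + 1 - n = 1 := by omega
    rw [h1, Finset.sum_range_one, zero_add, pow_zero]
    have : f.coeff n = 1 := (minpoly.monic ha)
    rw [this, one_smul]
  refine ⟨Q, hQn, fun x => ?_⟩
  rw [← sub_eq_zero, Finset.mul_sum, Finset.sum_mul, ← Finset.sum_sub_distrib]
  have e1 : ∀ j ∈ Finset.range n, a * (Q (j + 1) * x * a ^ j) - Q (j + 1) * x * a ^ j * a
      = (Q j * x * a ^ j - Q (j + 1) * x * a ^ (j + 1)) - x * (f.coeff j • a ^ j) := by
    intro j hj
    have h2 := hQ j (Finset.mem_range.1 hj).le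
    have h3 : a * Q (j + 1) = Q j - algebraMap F D (f.coeff j) := by
      rw [h2]; abel
    have h4 : x * (f.coeff j • a ^ j) = algebraMap F D (f.coeff j) * x * a ^ j := by
      rw [Algebra.smul_def, ← mul_assoc, ← Algebra.commutes]
    rw [h4]
    calc a * (Q (j + 1) * x * a ^ j) - Q (j + 1) * x * a ^ j * a
        = (a * Q (j + 1)) * x * a ^ j - Q (j + 1) * x * (a ^ j * a) := by noncomm_ring
      _ = (Q j - algebraMap F D (f.coeff j)) * x * a ^ j - Q (j + 1) * x * a ^ (j + 1) := by
          rw [h3, pow_succ]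
      _ = _ := by
          rw [sub_mul, sub_mul]; abel
  rw [Finset.sum_congr rfl e1, Finset.sum_sub_distrib, Finset.sum_range_sub', ← Finset.mul_sum,
    hQ0, hQn]
  have h5 := minpoly.aeval F a
  rw [aeval_eq_sum_range, Finset.sum_range_succ] at h5
  have h6 : (minpoly F a).coeff (minpoly F a).natDegree = 1 := (minpoly.monic ha)
  rw [h6, one_smul] at h5
  have h7 : (∑ i ∈ Finset.range n, f.coeff i • a ^ i) = - a ^ n := eq_neg_of_add_eq_zero_left h5
  rw [h7]
  noncomm_ring

/-- Double centralizer property for the subfield generated by one element. -/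
theorem dc (hcen : ∀ x : D, (∀ y : D, y * x = x * y) → x ∈ Set.range (algebraMap F D))
    (halg : Algebra.IsAlgebraic F D) (a y : D)
    (h : ∀ x : D, a * x = x * a → y * x = x * y) : y ∈ Algebra.adjoin F {a} := by
  by_contra hy
  have ha : IsIntegral F a := (halg.isAlgebraic a).isIntegral
  obtain ⟨Q, hQn, hQ⟩ := exists_trace (F := F) a ha
  set n := (minpoly F a).natDegree with hn
  have hnpos : 0 < n := minpoly.natDegree_pos ha
  have hpow := linearIndependent_pow (K := F) a
  have hmem : ∀ g : Fin n → F, (∑ j : Fin n, g j • a ^ (j : ℕ)) ∈ Algebra.adjoin F {a} := by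
    intro g
    refine Subalgebra.sum_mem _ fun j _ => Subalgebra.smul_mem _ ?_ _
    exact Subalgebra.pow_mem _ (Algebra.self_mem_adjoin_singleton F a) _
  let v : Fin n ⊕ Fin n → D := Sum.elim (fun j => a ^ (j : ℕ)) (fun j => a ^ (j : ℕ) * y)
  have hv : LinearIndependent F v := by
    rw [Fintype.linearIndependent_iff]
    intro g hg
    rw [Fintype.sum_sum_type] at hg
    have e1 : ∑ j : Fin n, g (Sum.inr j) • v (Sum.inr j)
        = (∑ j : Fin n, g (Sum.inr j) • a ^ (j : ℕ)) * y := by
      rw [Finset.sum_mul]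
      refine Finset.sum_congr rfl fun j _ => ?_
      rw [smul_mul_assoc]
      rfl
    rw [e1] at hg
    have hB : (∑ j : Fin n, g (Sum.inr j) • a ^ (j : ℕ)) = 0 := by
      by_contra hB
      apply hy
      have e2 : y = (∑ j : Fin n, g (Sum.inr j) • a ^ (j : ℕ))⁻¹
          * (-(∑ j : Fin n, g (Sum.inl j) • a ^ (j : ℕ))) := by
        have e3 : (∑ j : Fin n, g (Sum.inr j) • a ^ (j : ℕ)) * y
            = -(∑ j : Fin n, g (Sum.inl j) • a ^ (j : ℕ)) :=
          eq_neg_of_add_eq_zero_right hg
        rw [← e3, ← mul_assoc, inv_mul_cancel₀ hB, one_mul]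
      rw [e2]
      refine Subalgebra.mul_mem _ ?_ (Subalgebra.neg_mem _ (hmem _))
      exact ((halg.isAlgebraic _).isIntegral).inv_mem (hmem _)
    rw [hB, zero_mul, add_zero] at hg
    rw [Fintype.linearIndependent_iff] at hpow
    have h1 := hpow (fun j => g (Sum.inl j)) hg
    have h2 := hpow (fun j => g (Sum.inr j)) hB
    rintro (j | j)
    · exact h1 j
    · exact h2 j
  have hrel := indep hcen v hv Finset.univ
    (Sum.elim (fun j => y * Q ((j : ℕ) + 1)) (fun j => - Q ((j : ℕ) + 1))) ?_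
    (Sum.inr ⟨n - 1, by omega⟩) (Finset.mem_univ _)
  · have : - Q (n - 1 + 1) = 0 := hrel
    rw [Nat.sub_add_cancel hnpos, hQn] at this
    exact one_ne_zero (neg_eq_zero.1 this)
  · intro x
    rw [Fintype.sum_sum_type]
    have h1 := h _ (hQ x)
    have e1 : ∑ j : Fin n, y * Q ((j : ℕ) + 1) * x * a ^ (j : ℕ)
        = y * ∑ j ∈ Finset.range n, Q (j + 1) * x * a ^ j := by
      rw [Fin.sum_univ_eq_sum_range (fun j => y * Q (j + 1) * x * a ^ j) n, Finset.mul_sum]
      refine Finset.sum_congr rfl fun j _ => ?_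
      noncomm_ring
    have e2 : ∑ j : Fin n, - Q ((j : ℕ) + 1) * x * (a ^ (j : ℕ) * y)
        = - ((∑ j ∈ Finset.range n, Q (j + 1) * x * a ^ j) * y) := by
      rw [Fin.sum_univ_eq_sum_range (fun j => - Q (j + 1) * x * (a ^ j * y)) n, Finset.sum_mul,
        ← Finset.sum_neg_distrib]
      refine Finset.sum_congr rfl fun j _ => ?_
      noncomm_ring
    show ∑ j : Fin n, y * Q ((j : ℕ) + 1) * x * a ^ (j : ℕ)
      + ∑ j : Fin n, - Q ((j : ℕ) + 1) * x * (a ^ (j : ℕ) * y) = 0
    rw [e1, e2, h1]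
    abel

/-- In characteristic `p`, an element `a` some `p`-power of which commutes with `x` while `a`
does not: there is a nontrivial automorphism. -/
theorem good_of_nil (halg : Algebra.IsAlgebraic F D) (p : ℕ) [hp : Fact p.Prime] [CharP F p]
    (a x : D) (h : a ^ p * x = x * a ^ p) (hax : a * x ≠ x * a) : Good F D := by
  have hCE : CharP (Module.End F D) p :=
    charP_of_injective_algebraMap (algebraMap F (Module.End F D)).injective p
  let δ : Module.End F D := LinearMap.mulLeft F a - LinearMap.mulRight F a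
  have hδ : ∀ z, δ z = a * z - z * a := fun z => by
    simp [δ]
  have hpow : (δ ^ p) x = 0 := by
    have h1 : δ ^ p = (LinearMap.mulLeft F a) ^ p - (LinearMap.mulRight F a) ^ p :=
      sub_pow_char_of_commute (R := Module.End F D) (p := p) (LinearMap.commute_mulLeft_right a a)
    rw [h1, LinearMap.pow_mulLeft, LinearMap.pow_mulRight]
    simp [h]
  have hex : ∃ k, (δ ^ k) x = 0 := ⟨p, hpow⟩
  classical
  set k := Nat.find hex with hk
  have hk0 : (δ ^ k) x = 0 := Nat.find_spec hex
  have hmin : ∀ m, m < k → (δ ^ m) x ≠ 0 := fun m hm => Nat.find_min hex hm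
  have hx0 : x ≠ 0 := by
    rintro rfl
    simp at hax
  have hk1 : k ≠ 0 := by
    intro h0
    rw [h0] at hk0
    exact hx0 (by simpa using hk0)
  have hk2 : k ≠ 1 := by
    intro h0
    rw [h0, pow_one, hδ] at hk0
    exact hax (sub_eq_zero.1 hk0)
  obtain ⟨m, hm⟩ : ∃ m, k = m + 2 := ⟨k - 2, by omega⟩
  set w := (δ ^ m) x with hw
  set u := (δ ^ (m + 1)) x with hu
  have hu0 : u ≠ 0 := hmin (m + 1) (by omega)
  have h1 : a * w - w * a = u := by
    rw [← hδ, hw, hu, pow_succ']
    rfl
  have h2 : a * u - u * a = 0 := by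
    rw [← hδ, hu]
    have : δ ((δ ^ (m + 1)) x) = (δ ^ k) x := by
      rw [hm, pow_succ' δ (m + 1)]
      rfl
    rw [this, hk0]
  have ha0 : a ≠ 0 := by
    rintro rfl
    simp at hax
  have h3 : a * u = u * a := sub_eq_zero.1 h2
  have h4 : a * w = w * a + u := by rw [← h1]; abel
  have h5 : a * u⁻¹ = u⁻¹ * a := by
    have : u⁻¹ * (a * u) * u⁻¹ = u⁻¹ * (u * a) * u⁻¹ := by rw [h3]
    rw [mul_assoc, mul_assoc, mul_inv_cancel₀ hu0, mul_one, ← mul_assoc, inv_mul_cancel₀ hu0,
      one_mul] at this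
    exact this.symm
  refine good_of_conj_one halg (w * u⁻¹ * a) (w * u⁻¹ * a + 1) a ha0 ?_ ?_ ?_
  · calc a * (w * u⁻¹ * a) = (a * w) * u⁻¹ * a := by noncomm_ring
      _ = (w * a + u) * u⁻¹ * a := by rw [h4]
      _ = w * (a * u⁻¹) * a + (u * u⁻¹) * a := by noncomm_ring
      _ = w * (u⁻¹ * a) * a + 1 * a := by rw [h5, mul_inv_cancel₀ hu0]
      _ = (w * u⁻¹ * a + 1) * a := by noncomm_ring
  · exact Subalgebra.add_mem _ (Algebra.self_mem_adjoin_singleton F _) (Subalgebra.one_mem _)
  · intro hcon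
    exact one_ne_zero (add_eq_left.1 hcon)

end

end Pool.Agent.Helper4.GAL
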