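import Pool.Agent.Helper4.GAL.Quad

/-!
MP_249799_al, Q1 (partial).  Let `D` be a division ring algebraic over its centre `F`.  If some
element of `D` is not separable over `F`, then some subfield of `D` has an `F`-automorphism other
than the identity.
-/

set_option autoImplicit false

namespace Pool.Agent.Helper4.GAL.Inseparable

theorem result {F D : Type*} [Field F] [DivisionRing D] [Algebra F D]
    (hcen : ∀ x : D, (∀ y : D, y * x = x * y) → x ∈ Set.range (algebraMap F D))
    (halg : Algebra.IsAlgebraic F D) (a : D) (ha : ¬ (minpoly F a).Separable) :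
    ∃ K : Subalgebra F D, (∀ x ∈ K, ∀ y ∈ K, x * y = y * x) ∧
      ∃ σ : K ≃ₐ[F] K, σ ≠ AlgEquiv.refl :=
  Pool.Agent.Helper4.GAL.good_of_insep hcen halg a ha

end Pool.Agent.Helper4.GAL.Inseparable
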