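import Pool.Agent.Helper4.GAL.DC

/-!
Helpers for problem MP_249799_al: inseparable elements, elements of degree two, and elements
whose cube commutes with something they do not commute with.
-/

set_option autoImplicit false

namespace Pool.Agent.Helper4.GAL

open Algebra Polynomial

section

variable {F D : Type*} [Field F] [DivisionRing D] [Algebra F D]

/-- A nonseparable element gives a nontrivial automorphism. -/
theorem good_of_insep
    (hcen : ∀ x : D, (∀ y : D, y * x = x * y) → x ∈ Set.range (algebraMap F D))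
    (halg : Algebra.IsAlgebraic F D) (a : D) (h : ¬ (minpoly F a).Separable) : Good F D := by
  have ha : IsIntegral F a := (halg.isAlgebraic a).isIntegral
  obtain ⟨p, hp⟩ := CharP.exists F
  rcases CharP.char_is_prime_or_zero F p with hpp | rfl
  · have : Fact p.Prime := ⟨hpp⟩
    by_cases hex : ∃ x : D, a ^ p * x = x * a ^ p ∧ a * x ≠ x * a
    · obtain ⟨x, hx1, hx2⟩ := hex
      exact good_of_nil halg p a x hx1 hx2
    · exfalso
      apply h
      have h1 : a ∈ Algebra.adjoin F {a ^ p} := by
        refine dc hcen halg (a ^ p) a fun x hx => ?_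
        by_contra hcon
        exact hex ⟨x, hx, hcon⟩
      rw [Algebra.adjoin_singleton_eq_range_aeval, AlgHom.mem_range] at h1
      obtain ⟨r, hr⟩ := h1
      have h2 : minpoly F a ∣ X - expand F p r := by
        apply minpoly.dvd
        rw [map_sub, aeval_X, expand_aeval, hr, sub_self]
      refine Separable.of_dvd ?_ h2
      have h3 : derivative (X - expand F p r) = 1 := by
        rw [derivative_sub, derivative_X, derivative_expand]
        have : (p : F[X]) = 0 := CharP.cast_eq_zero F[X] p
        rw [this, zero_mul, mul_zero, sub_zero]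
      rw [Polynomial.Separable, h3]
      exact isCoprime_one_right
  · exfalso
    apply h
    have : CharZero F := CharP.charP_to_charZero F
    exact (minpoly.irreducible ha).separable

theorem exists_not_comm
    (hcen : ∀ x : D, (∀ y : D, y * x = x * y) → x ∈ Set.range (algebraMap F D))
    (a : D) (ha : a ∉ Set.range (algebraMap F D)) : ∃ x : D, a * x ≠ x * a := by
  by_contra hcon
  push Not at hcon
  exact ha (hcen a fun y => (hcon y).symm)

theorem quad_id {R : Type*} [Ring R] (a x c N : R) (hcx : c * x = x * c) (hca : c * a = a * c)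
    (hN : N * x = x * N) (h : a * a = c * a - N) :
    a * (a * x - x * a) = (a * x - x * a) * (c - a) := by
  linear_combination (norm := noncomm_ring) h * x - x * h + a * hcx + hca * x - x * hca - hN

/-- A noncentral element of degree two gives a nontrivial automorphism. -/
theorem good_of_quad
    (hcen : ∀ x : D, (∀ y : D, y * x = x * y) → x ∈ Set.range (algebraMap F D))
    (halg : Algebra.IsAlgebraic F D) (a : D) (ha : a ∉ Set.range (algebraMap F D)) (c N : F)
    (h : a * a = algebraMap F D c * a - algebraMap F D N) : Good F D := by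
  obtain ⟨x, hx⟩ := exists_not_comm hcen a ha
  have he : a * x - x * a ≠ 0 := fun h0 => hx (sub_eq_zero.1 h0)
  have h1 := quad_id a x (algebraMap F D c) (algebraMap F D N) (Algebra.commutes c x)
    (Algebra.commutes c a) (Algebra.commutes N x) h
  set e := a * x - x * a with hedef
  by_cases hca : algebraMap F D c - a = a
  · by_cases h2 : (2 : F) = 0
    · have hchar : CharP F 2 := CharTwo.of_one_ne_zero_of_two_eq_zero one_ne_zero h2
      have h2D : (2 : D) = 0 := by
        have := congrArg (algebraMap F D) h2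
        rwa [map_ofNat, map_zero] at this
      have hc0 : algebraMap F D c = 0 := by
        have : algebraMap F D c = a + a := by
          rw [sub_eq_iff_eq_add] at hca
          exact hca
        rw [this, ← two_mul, h2D, zero_mul]
      have : Fact (Nat.Prime 2) := ⟨Nat.prime_two⟩
      refine good_of_nil halg 2 a x ?_ hx
      rw [pow_two, h, hc0, zero_mul, zero_sub, neg_mul, mul_neg, Algebra.commutes]
    · exfalso
      apply ha
      refine ⟨c / 2, ?_⟩
      have h2D : (2 : D) ≠ 0 := by
        intro h0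
        apply h2
        apply (algebraMap F D).injective
        rw [map_ofNat, map_zero]
        exact h0
      have h3 : algebraMap F D c = 2 * a := by
        rw [sub_eq_iff_eq_add] at hca
        rw [hca, two_mul]
      rw [div_eq_inv_mul, map_mul, h3, map_inv₀, map_ofNat, ← mul_assoc, inv_mul_cancel₀ h2D,
        one_mul]
  · refine good_of_conj_one halg a (algebraMap F D c - a) e⁻¹ (inv_ne_zero he) ?_ ?_ hca
    · have : e⁻¹ * (a * e) * e⁻¹ = e⁻¹ * (e * (algebraMap F D c - a)) * e⁻¹ := by rw [h1]
      rw [← mul_assoc, mul_assoc _ e, mul_inv_cancel₀ he, mul_one, ← mul_assoc,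
        inv_mul_cancel₀ he, one_mul] at this
      exact this
    · exact Subalgebra.sub_mem _ (Subalgebra.algebraMap_mem _ _)
        (Algebra.self_mem_adjoin_singleton F a)

/-- If `z ^ 3` commutes with `g` while `z` does not, there is a nontrivial automorphism. -/
theorem good_of_cube
    (hcen : ∀ x : D, (∀ y : D, y * x = x * y) → x ∈ Set.range (algebraMap F D))
    (halg : Algebra.IsAlgebraic F D) (g z : D) (h1 : g * z ≠ z * g)
    (h3 : g * z ^ 3 = z ^ 3 * g) : Good F D := by
  by_cases h3F : (3 : F) = 0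
  · have : Fact (Nat.Prime 3) := ⟨Nat.prime_three⟩
    have : CharP F 3 := (CharP.charP_iff_prime_eq_zero Nat.prime_three).2 (by exact_mod_cast h3F)
    exact good_of_nil halg 3 z g h3.symm h1.symm
  have hg : g ≠ 0 := by
    rintro rfl
    simp at h1
  have hz : z ≠ 0 := by
    rintro rfl
    simp at h1
  -- the conjugate
  set z' := g * z * g⁻¹ with hz'
  have hz'g : z' * g = g * z := by rw [hz', mul_assoc, inv_mul_cancel₀ hg, mul_one]
  have hz'0 : z' ≠ 0 := mul_ne_zero (mul_ne_zero hg hz) (inv_ne_zero hg)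
  have hz'3 : z' * z' * z' = z * z * z := by
    have e1 : z' * z' * z' * g = z * z * z * g := by
      linear_combination (norm := noncomm_ring) z' * z' * hz'g + z' * hz'g * z
        + hz'g * z * z + h3
    exact mul_right_cancel₀ hg e1
  have hne : z' - z ≠ 0 := by
    intro h0
    apply h1
    rw [← hz'g, sub_eq_zero.1 h0]
  set k := z' - z with hk
  set z2 := k * z' * k⁻¹ with hz2
  have hz2k : z2 * k = k * z' := by rw [hz2, mul_assoc, inv_mul_cancel₀ hne, mul_one]
  have hz20 : z2 ≠ 0 := mul_ne_zero (mul_ne_zero hne hz'0) (inv_ne_zero hne)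
  have hrel : z2 * z2 + z * z2 + z * z = 0 := by
    have e1 : (z2 * z2 + z * z2 + z * z) * k = 0 := by
      linear_combination (norm := noncomm_ring) z2 * hz2k + hz2k * z' + z * hz2k
        + hk * z' * z' + z * hk * z' + z * z * hk + hz'3
    exact (mul_eq_zero.1 e1).resolve_right hne
  set ρ := z⁻¹ * z2 with hρ
  have hzρ : z * ρ = z2 := by rw [hρ, ← mul_assoc, mul_inv_cancel₀ hz, one_mul]
  have hρ0 : ρ ≠ 0 := mul_ne_zero (inv_ne_zero hz) hz20
  have hrel2 : ρ * z * ρ + z * ρ + z = 0 := by
    have e1 : z * (ρ * z * ρ + z * ρ + z) = 0 := by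
      calc z * (ρ * z * ρ + z * ρ + z) = (z * ρ) * (z * ρ) + z * (z * ρ) + z * z := by
            noncomm_ring
        _ = 0 := by rw [hzρ, hrel]
    exact (mul_eq_zero.1 e1).resolve_left hz
  -- `z⁻¹ * ρ = (-1 - ρ⁻¹) * z⁻¹`
  have hconj : z⁻¹ * ρ = (-1 - ρ⁻¹) * z⁻¹ := by
    have e1 : z⁻¹ * (ρ * z * ρ + z * ρ + z) * ρ⁻¹ * z⁻¹ = 0 := by
      rw [hrel2, mul_zero, zero_mul, zero_mul]
    have e2 : z⁻¹ * (ρ * z * ρ + z * ρ + z) * ρ⁻¹ * z⁻¹
        = z⁻¹ * ρ * z * (ρ * ρ⁻¹) * z⁻¹ + (z⁻¹ * z) * (ρ * ρ⁻¹) * z⁻¹
          + (z⁻¹ * z) * ρ⁻¹ * z⁻¹ := by noncomm_ring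
    have e3 : z⁻¹ * ρ * z * 1 * z⁻¹ = z⁻¹ * ρ * (z * z⁻¹) := by noncomm_ring
    rw [e2, mul_inv_cancel₀ hρ0, inv_mul_cancel₀ hz, e3, mul_inv_cancel₀ hz] at e1
    linear_combination (norm := noncomm_ring) e1
  have hρint : IsIntegral F ρ := (halg.isAlgebraic ρ).isIntegral
  by_cases hcase : (-1 - ρ⁻¹) = ρ
  · have hρ2 : ρ * ρ = algebraMap F D (-1) * ρ - algebraMap F D 1 := by
      have e1 : (-1 - ρ⁻¹) * ρ = ρ * ρ := by rw [hcase]
      rw [sub_mul, inv_mul_cancel₀ hρ0] at e1
      rw [← e1]
      simp
    by_cases hρF : ρ ∈ Set.range (algebraMap F D)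
    · obtain ⟨r, hr⟩ := hρF
      refine good_of_conj_one halg z z2 (k * g) (mul_ne_zero hne hg) ?_ ?_ ?_
      · calc k * g * z = k * (z' * g) := by rw [hz'g]; noncomm_ring
          _ = (k * z') * g := by noncomm_ring
          _ = z2 * (k * g) := by rw [← hz2k]; noncomm_ring
      · rw [← hzρ, ← hr]
        exact Subalgebra.mul_mem _ (Algebra.self_mem_adjoin_singleton F z)
          (Subalgebra.algebraMap_mem _ _)
      · intro hcon
        apply h3F
        have e1 : ρ = 1 := by
          rw [hρ, hcon, inv_mul_cancel₀ hz]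
        rw [e1] at hρ2
        apply (algebraMap F D).injective
        rw [map_ofNat, map_zero]
        have e2 : (1 : D) * 1 = algebraMap F D (-1) * 1 - algebraMap F D 1 := hρ2
        rw [map_neg, map_one] at e2
        have e3 : (3 : D) = 1 * 1 - (-1 * 1 - 1) := by norm_num
        rw [e3, ← e2, sub_self]
    · exact good_of_quad hcen halg ρ hρF (-1) 1 hρ2
  · refine good_of_conj_one halg ρ (-1 - ρ⁻¹) z⁻¹ (inv_ne_zero hz) hconj ?_ hcase
    exact Subalgebra.sub_mem _ (Subalgebra.neg_mem _ (Subalgebra.one_mem _)) hρint.inv_mem_adjoin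

end

end Pool.Agent.Helper4.GAL
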