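import Pool.Agent.Helper4.GAL.Cubic

/-!
Helpers for problem MP_249799_al: elements of degree four.
-/

set_option autoImplicit false

namespace Pool.Agent.Helper4.GAL

open Algebra Polynomial

section

variable {F D : Type*} [Field F] [DivisionRing D] [Algebra F D]

theorem quartic_id {R : Type*} [Ring R] (x b c C1 C2 C3 C4 : R)
    (hf : x * x * x * x - C1 * (x * x * x) + C2 * (x * x) - C3 * x + C4 = 0)
    (hr : x * x - b * x + c = 0) :
    (C3 - ((C1 - b) * c + (C2 - c - (C1 - b) * b) * b)) * x
      = C4 - (C2 - c - (C1 - b) * b) * c := by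
  linear_combination (norm := noncomm_ring) - hf + hr * x * x - (C1 - b) * hr * x
    + (C2 - c - (C1 - b) * b) * hr

theorem resolvent_id {R : Type*} [CommRing R] (b c C1 C2 C3 C4 : R)
    (h1 : (C1 - b) * c + (C2 - c - (C1 - b) * b) * b = C3)
    (h2 : (C2 - c - (C1 - b) * b) * c = C4) :
    ((C1 - b) * b) * ((C1 - b) * b) * ((C1 - b) * b)
      - (2 * C2) * (((C1 - b) * b) * ((C1 - b) * b))
      + (C2 ^ 2 + C1 * C3 - 4 * C4) * ((C1 - b) * b)
      - (-(C3 ^ 2 + C1 ^ 2 * C4 - C1 * C2 * C3)) = 0 := by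
  subst h1 h2
  ring

/-- A noncentral root of a monic quartic gives a nontrivial automorphism. -/
theorem good_of_quartic
    (hcen : ∀ x : D, (∀ y : D, y * x = x * y) → x ∈ Set.range (algebraMap F D))
    (halg : Algebra.IsAlgebraic F D) (a : D) (ha : a ∉ Set.range (algebraMap F D))
    (c1 c2 c3 c4 : F)
    (hf : a * a * a * a - algebraMap F D c1 * (a * a * a) + algebraMap F D c2 * (a * a)
      - algebraMap F D c3 * a + algebraMap F D c4 = 0) : Good F D := by
  obtain ⟨g, hag⟩ := exists_not_comm hcen a ha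
  have hC1 : ∀ x : D, algebraMap F D c1 * x = x * algebraMap F D c1 := Algebra.commutes c1
  have hC2 : ∀ x : D, algebraMap F D c2 * x = x * algebraMap F D c2 := Algebra.commutes c2
  have hC3 : ∀ x : D, algebraMap F D c3 * x = x * algebraMap F D c3 := Algebra.commutes c3
  have hC4 : ∀ x : D, algebraMap F D c4 * x = x * algebraMap F D c4 := Algebra.commutes c4
  set C1 := algebraMap F D c1 with hC1def
  set C2 := algebraMap F D c2 with hC2def
  set C3 := algebraMap F D c3 with hC3def
  set C4 := algebraMap F D c4 with hC4def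
  have hg : g ≠ 0 := by
    rintro rfl
    simp at hag
  obtain ⟨a', ha'g⟩ : ∃ a' : D, a' * g = g * a :=
    ⟨g * a * g⁻¹, by rw [mul_assoc, inv_mul_cancel₀ hg, mul_one]⟩
  have hf' : a' * a' * a' * a' - C1 * (a' * a' * a') + C2 * (a' * a') - C3 * a' + C4 = 0 := by
    have e1 : (a' * a' * a' * a' - C1 * (a' * a' * a') + C2 * (a' * a') - C3 * a' + C4) * g
        = 0 := by
      linear_combination (norm := noncomm_ring) g * hf + a' * a' * a' * ha'g
        + a' * a' * ha'g * a + a' * ha'g * a * a + ha'g * a * a * a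
        - C1 * a' * a' * ha'g - C1 * a' * ha'g * a - C1 * ha'g * a * a
        + C2 * a' * ha'g + C2 * ha'g * a - C3 * ha'g
        - hC1 g * a * a * a + hC2 g * a * a - hC3 g * a + hC4 g
    exact (mul_eq_zero.1 e1).resolve_right hg
  have hk : a' - a ≠ 0 := by
    intro h0
    apply hag
    rw [← ha'g, sub_eq_zero.1 h0]
  obtain ⟨a2, ha2k⟩ : ∃ a2 : D, a2 * (a' - a) = (a' - a) * a' :=
    ⟨(a' - a) * a' * (a' - a)⁻¹, by rw [mul_assoc, inv_mul_cancel₀ hk, mul_one]⟩
  obtain ⟨b, c, hr, hr'⟩ : ∃ b c : D, a * a - b * a + c = 0 ∧ a' * a' - b * a' + c = 0 := by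
    refine ⟨a + a2, a2 * a, by noncomm_ring, ?_⟩
    linear_combination (norm := noncomm_ring) - ha2k
  have hq1 := quartic_id a b c C1 C2 C3 C4 hf hr
  have hq2 := quartic_id a' b c C1 C2 C3 C4 hf' hr'
  have hα : C3 - ((C1 - b) * c + (C2 - c - (C1 - b) * b) * b) = 0 := by
    have e1 : (C3 - ((C1 - b) * c + (C2 - c - (C1 - b) * b) * b)) * (a' - a) = 0 := by
      rw [mul_sub, hq1, hq2, sub_self]
    exact (mul_eq_zero.1 e1).resolve_right hk
  rw [hα, zero_mul] at hq1
  have hE1 : (C1 - b) * c + (C2 - c - (C1 - b) * b) * b = C3 := (sub_eq_zero.1 hα).symm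
  have hE2 : (C2 - c - (C1 - b) * b) * c = C4 := (sub_eq_zero.1 hq1.symm).symm
  -- the degree two relation for `a`
  have hquad : b ∈ Set.range (algebraMap F D) → c ∈ Set.range (algebraMap F D) → Good F D := by
    rintro ⟨β, hβ⟩ ⟨γ, hγ⟩
    refine good_of_quad hcen halg a ha β γ ?_
    rw [hβ, hγ]
    linear_combination (norm := noncomm_ring) hr
  by_cases hcase : C1 - b = b
  · -- the degenerate case
    have hw : b * c - c * b = C3 - C2 * b + b * b * b := by
      rw [hcase] at hE1
      linear_combination (norm := noncomm_ring) hE1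
    by_cases hw0 : b * c - c * b = 0
    · have hbc : b * c = c * b := sub_eq_zero.1 hw0
      rw [hw0] at hw
      by_cases hbF : b ∈ Set.range (algebraMap F D)
      · by_cases hcF : c ∈ Set.range (algebraMap F D)
        · exact hquad hbF hcF
        · obtain ⟨β, hβ⟩ := hbF
          refine good_of_quad hcen halg c hcF (c2 - β * β) c4 ?_
          rw [map_sub, map_mul, hβ, ← hC2def, ← hC4def]
          rw [hcase] at hE2
          linear_combination (norm := noncomm_ring) - hE2
      · refine good_of_cubic hcen halg b hbF 0 (-c2) (-c3) ?_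
        rw [map_zero, map_neg, map_neg, ← hC2def, ← hC3def]
        linear_combination (norm := noncomm_ring) - hw
    · have hb0 : b ≠ 0 := by
        rintro rfl
        simp at hw0
      have hwb : b * (b * c - c * b) = (b * c - c * b) * b := by
        rw [hw]
        linear_combination (norm := noncomm_ring) - hC3 b + hC2 b * b
      set w := b * c - c * b with hwdef
      have hwb' : b * w⁻¹ = w⁻¹ * b := by
        have : w⁻¹ * (b * w) * w⁻¹ = w⁻¹ * (w * b) * w⁻¹ := by rw [hwb]
        rw [← mul_assoc, mul_assoc _ w, mul_inv_cancel₀ hw0, mul_one, ← mul_assoc,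
          inv_mul_cancel₀ hw0, one_mul] at this
        exact this.symm
      have hw1 : w⁻¹ * w = 1 := inv_mul_cancel₀ hw0
      refine good_of_conj_one halg (w⁻¹ * c * b) (w⁻¹ * c * b + 1) b hb0 ?_ ?_ ?_
      · linear_combination (norm := noncomm_ring) hwb' * c * b - w⁻¹ * hwdef * b + hw1 * b
      · exact Subalgebra.add_mem _ (Algebra.self_mem_adjoin_singleton F _)
          (Subalgebra.one_mem _)
      · intro hcon
        exact one_ne_zero (add_eq_left.1 hcon)
  · -- the generic case
    have hm0 : C1 - b - b ≠ 0 := fun h0 => hcase (sub_eq_zero.1 h0)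
    have hmb : (C1 - b - b) * b = b * (C1 - b - b) := by
      linear_combination (norm := noncomm_ring) hC1 b
    have hmb' : (C1 - b - b)⁻¹ * b = b * (C1 - b - b)⁻¹ := by
      set m := C1 - b - b
      have : m⁻¹ * (m * b) * m⁻¹ = m⁻¹ * (b * m) * m⁻¹ := by rw [hmb]
      rw [← mul_assoc, inv_mul_cancel₀ hm0, one_mul, ← mul_assoc, mul_assoc _ m,
        mul_inv_cancel₀ hm0, mul_one] at this
      exact this.symm
    have hm1 : (C1 - b - b) * (C1 - b - b)⁻¹ = 1 := mul_inv_cancel₀ hm0
    obtain ⟨c0, hc0⟩ : ∃ c0 : D, c0 = (C1 - b - b)⁻¹ * (C3 - C2 * b + (C1 - b) * b * b) :=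
      ⟨_, rfl⟩
    have hmc0 : (C1 - b - b) * c0 = C3 - C2 * b + (C1 - b) * b * b := by
      rw [hc0, ← mul_assoc, hm1, one_mul]
    have hc0b : c0 * b = b * c0 := by
      rw [hc0]
      linear_combination (norm := noncomm_ring)
        hmb' * (C3 - C2 * b + (C1 - b) * b * b)
        + (C1 - b - b)⁻¹ * hC3 b - (C1 - b - b)⁻¹ * hC2 b * b
        + (C1 - b - b)⁻¹ * hC1 b * b * b
    have he : (C1 - b) * (c - c0) = (c - c0) * b := by
      linear_combination (norm := noncomm_ring) hE1 - hmc0 + hc0b
    by_cases he0 : c - c0 = 0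
    · have hcc0 : c = c0 := sub_eq_zero.1 he0
      rw [← hcc0] at hc0b hmc0
      -- everything commutes
      have hcubic : ((C1 - b) * b) * ((C1 - b) * b) * ((C1 - b) * b)
          - algebraMap F D (2 * c2) * (((C1 - b) * b) * ((C1 - b) * b))
          + algebraMap F D (c2 ^ 2 + c1 * c3 - 4 * c4) * ((C1 - b) * b)
          - algebraMap F D (-(c3 ^ 2 + c1 ^ 2 * c4 - c1 * c2 * c3)) = 0 := by
        have hS : ∀ x ∈ ({b, c} : Set D), ∀ y ∈ ({b, c} : Set D), x * y = y * x := by
          intro x hx y hy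
          rcases hx with hx | hx <;> rcases hy with hy | hy
          · rw [hx, hy]
          · rw [hx, Set.mem_singleton_iff.1 hy, hc0b]
          · rw [Set.mem_singleton_iff.1 hx, hy, hc0b]
          · rw [Set.mem_singleton_iff.1 hx, Set.mem_singleton_iff.1 hy]
        have hcomm := (Algebra.isMulCommutative_adjoin F hS).is_comm.comm
        let _ : CommRing (Algebra.adjoin F ({b, c} : Set D)) :=
          { (inferInstance : Ring (Algebra.adjoin F ({b, c} : Set D))) with
            mul_comm := hcomm }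
        let bK : Algebra.adjoin F ({b, c} : Set D) :=
          ⟨b, Algebra.subset_adjoin (Set.mem_insert _ _)⟩
        let cK : Algebra.adjoin F ({b, c} : Set D) :=
          ⟨c, Algebra.subset_adjoin (Set.mem_insert_of_mem _ (Set.mem_singleton _))⟩
        have h1 : (algebraMap F _ c1 - bK) * cK
            + (algebraMap F _ c2 - cK - (algebraMap F _ c1 - bK) * bK) * bK
            = algebraMap F _ c3 := Subtype.ext hE1
        have h2 : (algebraMap F _ c2 - cK - (algebraMap F _ c1 - bK) * bK) * cK
            = algebraMap F _ c4 := Subtype.ext hE2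
        have h3 := resolvent_id bK cK _ _ _ _ h1 h2
        have h4 := congrArg (fun z : Algebra.adjoin F ({b, c} : Set D) => (z : D)) h3
        have h5 : algebraMap F D (2 * c2) = 2 * C2 := by rw [map_mul, map_ofNat]
        have h6 : algebraMap F D (c2 ^ 2 + c1 * c3 - 4 * c4) = C2 ^ 2 + C1 * C3 - 4 * C4 := by
          rw [map_sub, map_add, map_mul, map_mul, map_pow, map_ofNat]
        have h7 : algebraMap F D (-(c3 ^ 2 + c1 ^ 2 * c4 - c1 * c2 * c3))
            = -(C3 ^ 2 + C1 ^ 2 * C4 - C1 * C2 * C3) := by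
          rw [map_neg, map_sub, map_add, map_mul, map_mul, map_mul, map_pow, map_pow]
        rw [h5, h6, h7]
        exact h4
      by_cases hsF : (C1 - b) * b ∈ Set.range (algebraMap F D)
      · by_cases hbF : b ∈ Set.range (algebraMap F D)
        · apply hquad hbF
          obtain ⟨β, hβ⟩ := hbF
          refine ⟨(c1 - β - β)⁻¹ * (c3 - c2 * β + (c1 - β) * β * β), ?_⟩
          have e1 : algebraMap F D (c1 - β - β) = C1 - b - b := by
            rw [map_sub, map_sub, hβ]
          rw [map_mul, map_inv₀, e1, map_add, map_sub, map_mul, map_mul, map_mul, map_sub, hβ,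
            ← hC1def, ← hC2def, ← hC3def, ← hmc0, ← mul_assoc, inv_mul_cancel₀ hm0, one_mul]
        · obtain ⟨s, hs⟩ := hsF
          refine good_of_quad hcen halg b hbF c1 s ?_
          rw [hs, ← hC1def]
          noncomm_ring
      · exact good_of_cubic hcen halg _ hsF _ _ _ hcubic
    · exact good_of_conj_one halg b (C1 - b) (c - c0) he0 he.symm
        (Subalgebra.sub_mem _ (Subalgebra.algebraMap_mem _ _)
          (Algebra.self_mem_adjoin_singleton F b)) hcase

end

end Pool.Agent.Helper4.GAL
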