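import Pool.Agent.Helper4.GAL.Quartic

/-!
Helpers for problem MP_249799_al: passing to the centralizer of a subfield.
-/

set_option autoImplicit false

namespace Pool.Agent.Helper4.GAL

open Algebra Polynomial

section

variable {F D : Type*} [Field F] [DivisionRing D] [Algebra F D]

/-- A nontrivial automorphism found in a division ring `E` over a larger field `B`. -/
theorem good_of_tower {B E : Type*} [Field B] [DivisionRing E] [Algebra F B] [Algebra B E]
    [Algebra F E] [IsScalarTower F B E] (ι : E →ₐ[F] D) (h : Good B E) : Good F D := by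
  obtain ⟨K, hK, σ, hσ⟩ := h
  have hinj : Function.Injective ι := ι.toRingHom.injective
  let K0 : Subalgebra F E := K.restrictScalars F
  let σ0 : K0 ≃ₐ[F] K0 := (σ.restrictScalars F : K ≃ₐ[F] K)
  let e : K0 ≃ₐ[F] (K0.map ι) := Subalgebra.equivMapOfInjective K0 ι hinj
  refine ⟨K0.map ι, ?_, e.symm.trans (σ0.trans e), ?_⟩
  · rintro _ ⟨x, hx, rfl⟩ _ ⟨y, hy, rfl⟩
    have := hK x hx y hy
    show ι x * ι y = ι y * ι x
    rw [← map_mul, this, map_mul]
  · intro hcon
    apply hσ
    apply AlgEquiv.ext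
    intro x
    have h1 : (e.symm.trans (σ0.trans e)) (e x) = e x := by rw [hcon]; rfl
    have h2 : (e.symm.trans (σ0.trans e)) (e x) = e (σ0 x) := by
      rw [AlgEquiv.trans_apply, AlgEquiv.trans_apply, AlgEquiv.symm_apply_apply]
    rw [h2] at h1
    exact e.injective h1

/-- The relative version: `a` has degree at most four over the subfield generated by `b`. -/
theorem good_rel
    (hcen : ∀ x : D, (∀ y : D, y * x = x * y) → x ∈ Set.range (algebraMap F D))
    (halg : Algebra.IsAlgebraic F D) (L : Subalgebra F D) (b : D)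
    (hL : L = Algebra.adjoin F {b}) (a : D) (ha : a ∉ L) (hab : a * b = b * a)
    (l1 l2 l3 l4 : D) (hl1 : l1 ∈ L) (hl2 : l2 ∈ L) (hl3 : l3 ∈ L) (hl4 : l4 ∈ L)
    (hf : a * a * a * a - l1 * (a * a * a) + l2 * (a * a) - l3 * a + l4 = 0) :
    Good F D := by
  have hLcomm : ∀ x ∈ L, ∀ y ∈ L, x * y = y * x := by
    intro x hx y hy
    have hS : ∀ x ∈ ({b} : Set D), ∀ y ∈ ({b} : Set D), x * y = y * x := by
      intro x hx y hy
      rw [Set.mem_singleton_iff.1 hx, Set.mem_singleton_iff.1 hy]
    rw [hL] at hx hy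
    exact congrArg Subtype.val ((Algebra.isMulCommutative_adjoin F hS).is_comm.comm ⟨x, hx⟩ ⟨y, hy⟩)
  have hbL : b ∈ L := by rw [hL]; exact Algebra.self_mem_adjoin_singleton F b
  -- `a` centralises `L`
  have hcent : ∀ x : D, x * b = b * x → ∀ y ∈ L, y * x = x * y := by
    intro x hx y hy
    rw [hL] at hy
    refine Algebra.adjoin_induction (p := fun y _ => y * x = x * y) ?_ ?_ ?_ ?_ hy
    · intro y hy
      rw [Set.mem_singleton_iff.1 hy]
      exact hx.symm
    · intro r
      exact Algebra.commutes r x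
    · intro u v _ _ hu hv
      rw [add_mul, mul_add, hu, hv]
    · intro u v _ _ hu hv
      rw [mul_assoc, hv, ← mul_assoc, hu, mul_assoc]
  -- the field `L`
  let _ : CommRing L := { (inferInstance : Ring L) with
    mul_comm := fun x y => Subtype.ext (hLcomm x x.2 y y.2) }
  let _ : Field L := Field.ofIsUnitOrEqZero (fun a => by
    by_cases ha : a = 0
    · exact Or.inr ha
    · left
      have h1 : IsIntegral F (a : D) := (halg.isAlgebraic (a : D)).isIntegral
      have h2 : ((a : D))⁻¹ ∈ L := h1.inv_mem a.2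
      have ha' : (a : D) ≠ 0 := fun h => ha (Subtype.ext h)
      exact ⟨⟨a, ⟨_, h2⟩, Subtype.ext (mul_inv_cancel₀ ha'), Subtype.ext (inv_mul_cancel₀ ha')⟩, rfl⟩)
  -- the centralizer
  let E : Subalgebra F D := Subalgebra.centralizer F (L : Set D)
  have hE : ∀ x : D, x ∈ E ↔ ∀ y ∈ L, y * x = x * y := fun x =>
    Subalgebra.mem_centralizer_iff F
  let _ : DivisionRing E := DivisionRing.ofIsUnitOrEqZero (fun a => by
    by_cases ha : a = 0
    · exact Or.inr ha
    · left
      have h1 : IsIntegral F (a : D) := (halg.isAlgebraic (a : D)).isIntegral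
      have h2 : ((a : D))⁻¹ ∈ E := h1.inv_mem a.2
      have ha' : (a : D) ≠ 0 := fun h => ha (Subtype.ext h)
      exact ⟨⟨a, ⟨_, h2⟩, Subtype.ext (mul_inv_cancel₀ ha'), Subtype.ext (inv_mul_cancel₀ ha')⟩, rfl⟩)
  have hLE : L ≤ E := fun x hx => (hE x).2 (fun y hy => hLcomm y hy x hx)
  let _ : Algebra L E := RingHom.toAlgebra' (Subalgebra.inclusion hLE).toRingHom (fun c x => by
    apply Subtype.ext
    exact (hE x).1 x.2 c c.2)
  have hmap : ∀ c : L, ((algebraMap L E c : E) : D) = (c : D) := fun c => rfl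
  have : IsScalarTower F L E := IsScalarTower.of_algebraMap_eq fun r => rfl
  refine good_of_tower (F := F) (B := L) (E := E) E.val ?_
  have halgE : Algebra.IsAlgebraic F E := ⟨fun x => by
    have := halg.isAlgebraic (x : D)
    exact (isAlgebraic_algHom_iff E.val Subtype.val_injective).1 this⟩
  have halgLE : Algebra.IsAlgebraic L E := Algebra.IsAlgebraic.tower_top (K := F) L
  have haE : a ∈ E := (hE a).2 (hcent a hab)
  have hcenE : ∀ x : E, (∀ y : E, y * x = x * y) → x ∈ Set.range (algebraMap L E) := by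
    intro x hx
    have h1 : (x : D) ∈ L := by
      rw [hL]
      refine dc hcen halg b (x : D) fun y hy => ?_
      have hyE : y ∈ E := (hE y).2 (hcent y hy.symm)
      exact (congrArg Subtype.val (hx ⟨y, hyE⟩)).symm
    exact ⟨⟨x, h1⟩, Subtype.ext rfl⟩
  refine good_of_quartic hcenE halgLE ⟨a, haE⟩ ?_ ⟨l1, hl1⟩ ⟨l2, hl2⟩ ⟨l3, hl3⟩ ⟨l4, hl4⟩ ?_
  · rintro ⟨c, hc⟩
    apply ha
    have := congrArg Subtype.val hc
    rw [← show (c : D) = a from this]
    exact c.2
  · exact Subtype.ext hf

end

end Pool.Agent.Helper4.GAL
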