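import Pool.Agent.Helper4.GAL.Step

/-!
Helpers for problem MP_249799_al: automorphisms and anti-automorphisms of a division ring `E`
over a field `B` that are nontrivial on an invariant subspace of dimension at most two.
-/

set_option autoImplicit false

namespace Pool.Agent.Helper4.GAL

open Algebra Polynomial Module

section

variable {B E : Type*} [Field B] [DivisionRing E] [Algebra B E]

/-- A linear map that is multiplicative or anti-multiplicative and moves an element inside the
subfield it generates. -/
theorem good_of_semi (halg : Algebra.IsAlgebraic B E) (κ : E →ₗ[B] E) (h1 : κ 1 = 1)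
    (hmul : (∀ u v, κ (u * v) = κ u * κ v) ∨ (∀ u v, κ (u * v) = κ v * κ u)) (y : E)
    (hy : κ y ∈ Algebra.adjoin B {y}) (hne : κ y ≠ y) : Good B E := by
  have hS : ∀ x ∈ ({y} : Set E), ∀ z ∈ ({y} : Set E), x * z = z * x := by
    intro x hx z hz
    rw [Set.mem_singleton_iff.1 hx, Set.mem_singleton_iff.1 hz]
  have hcomm : ∀ x ∈ Algebra.adjoin B {y}, ∀ z ∈ Algebra.adjoin B {y}, x * z = z * x := by
    intro x hx z hz
    exact congrArg Subtype.val
      ((Algebra.isMulCommutative_adjoin B hS).is_comm.comm ⟨x, hx⟩ ⟨z, hz⟩)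
  have hmap : ∀ x ∈ Algebra.adjoin B {y}, κ x ∈ Algebra.adjoin B {y} := by
    intro x hx
    refine Algebra.adjoin_induction (p := fun x _ => κ x ∈ Algebra.adjoin B {y})
      ?_ ?_ ?_ ?_ hx
    · intro x hx
      rw [Set.mem_singleton_iff.1 hx]
      exact hy
    · intro r
      rw [Algebra.algebraMap_eq_smul_one, map_smul, h1]
      exact Subalgebra.smul_mem _ (Subalgebra.one_mem _) r
    · intro u v _ _ hu hv
      rw [map_add]
      exact Subalgebra.add_mem _ hu hv
    · intro u v _ _ hu hv
      rcases hmul with hmul | hmul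
      · rw [hmul]
        exact Subalgebra.mul_mem _ hu hv
      · rw [hmul]
        exact Subalgebra.mul_mem _ hv hu
  have hmul' : ∀ u ∈ Algebra.adjoin B {y}, ∀ v ∈ Algebra.adjoin B {y},
      κ (u * v) = κ u * κ v := by
    intro u hu v hv
    rcases hmul with hmul | hmul
    · exact hmul u v
    · rw [hmul]
      exact hcomm _ (hmap v hv) _ (hmap u hu)
  refine ⟨Algebra.adjoin B {y}, hcomm, ?_⟩
  let φ : Algebra.adjoin B {y} →ₐ[B] Algebra.adjoin B {y} :=
    { toFun := fun x => ⟨κ x, hmap x x.2⟩
      map_one' := Subtype.ext h1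
      map_mul' := fun u v => Subtype.ext (hmul' u u.2 v v.2)
      map_zero' := by
        apply Subtype.ext
        show κ 0 = 0
        exact map_zero κ
      map_add' := fun u v => by
        apply Subtype.ext
        show κ ((u : E) + v) = κ u + κ v
        exact map_add κ _ _
      commutes' := fun r => by
        apply Subtype.ext
        show κ (algebraMap B E r) = algebraMap B E r
        rw [Algebra.algebraMap_eq_smul_one, map_smul, h1] }
  let _ : CommRing (Algebra.adjoin B {y}) :=
    { (inferInstance : Ring (Algebra.adjoin B {y})) with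
      mul_comm := fun u v => Subtype.ext (hcomm u u.2 v v.2) }
  let _ : Field (Algebra.adjoin B {y}) := Field.ofIsUnitOrEqZero (fun a => by
    by_cases ha : a = 0
    · exact Or.inr ha
    · left
      have h1 : IsIntegral B (a : E) := (halg.isAlgebraic (a : E)).isIntegral
      have h2 : ((a : E))⁻¹ ∈ Algebra.adjoin B {y} := h1.inv_mem a.2
      have ha' : (a : E) ≠ 0 := fun h => ha (Subtype.ext h)
      exact ⟨⟨a, ⟨_, h2⟩, Subtype.ext (mul_inv_cancel₀ ha'), Subtype.ext (inv_mul_cancel₀ ha')⟩, rfl⟩)
  have : Algebra.IsAlgebraic B (Algebra.adjoin B {y}) := ⟨fun x => by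
    have := halg.isAlgebraic (x : E)
    exact (isAlgebraic_algHom_iff (Algebra.adjoin B {y}).val Subtype.val_injective).1 this⟩
  refine ⟨AlgEquiv.ofBijective φ (Algebra.IsAlgebraic.algHom_bijective φ), ?_⟩
  intro hcon
  apply hne
  exact congrArg (fun τ : Algebra.adjoin B {y} ≃ₐ[B] Algebra.adjoin B {y} =>
    ((τ ⟨y, Algebra.self_mem_adjoin_singleton B y⟩ : Algebra.adjoin B {y}) : E)) hcon

/-- The two-dimensional invariant subspace. -/
theorem exists_two_dim (ψ : E →ₗ[B] E) (n : ℕ) :
    ∀ (P : B[X]), P.natDegree ≤ n → P ≠ 0 →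
    (∀ g : B[X], Irreducible g → g ∣ P → g.natDegree ≤ 2) → ∀ x : E, aeval ψ P x = 0 →
    ψ x ≠ x → ∃ (y : E) (α β : B), ψ y ≠ y ∧ ψ (ψ y) = α • ψ y - β • y := by
  induction n with
  | zero =>
    intro P hdeg hP _ x hx hne
    exfalso
    rw [Polynomial.eq_C_of_natDegree_le_zero hdeg, aeval_C] at hx
    have hc : P.coeff 0 ≠ 0 := by
      intro h0
      apply hP
      rw [Polynomial.eq_C_of_natDegree_le_zero hdeg, h0, C_0]
    have hx0 : x = 0 := by
      have : P.coeff 0 • x = 0 := hx
      exact (smul_eq_zero.1 this).resolve_left hc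
    rw [hx0, map_zero] at hne
    exact hne rfl
  | succ n ih =>
    intro P hdeg hP hirr x hx hne
    by_cases hunit : IsUnit P
    · refine ih P ?_ hP hirr x hx hne
      rw [Polynomial.natDegree_eq_zero_of_isUnit hunit]
      exact Nat.zero_le _
    obtain ⟨g, hg, Q, rfl⟩ := WfDvdMonoid.exists_irreducible_factor hunit hP
    have hQ0 : Q ≠ 0 := right_ne_zero_of_mul hP
    have hg0 : g ≠ 0 := hg.ne_zero
    have hgdeg : 0 < g.natDegree := hg.natDegree_pos
    have hg2 : g.natDegree ≤ 2 := hirr g hg (dvd_mul_right _ _)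
    have hQdeg : Q.natDegree ≤ n := by
      rw [Polynomial.natDegree_mul hg0 hQ0] at hdeg
      omega
    have hirrQ : ∀ g' : B[X], Irreducible g' → g' ∣ Q → g'.natDegree ≤ 2 := fun g' h1 h2 =>
      hirr g' h1 (h2.mul_left g)
    set z := aeval ψ Q x with hz
    have hgz : aeval ψ g z = 0 := by
      rw [hz, ← Module.End.mul_apply, ← map_mul]
      exact hx
    by_cases hψz : ψ z = z
    · by_cases hz0 : z = 0
      · exact ih Q hQdeg hQ0 hirrQ x hz0 hne
      · -- `z` is a nonzero fixed vector
        have hfix : ∀ R : B[X], aeval ψ R z = (R.eval 1) • z := by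
          intro R
          have h2 : ψ z = (1 : B) • z := by rw [hψz, one_smul]
          exact Module.End.aeval_apply_of_hasEigenvector
            (Module.End.hasEigenvector_iff.2 ⟨Module.End.mem_eigenspace_iff.2 h2, hz0⟩)
        by_cases hQ1 : Q.eval 1 = 0
        · obtain ⟨Q', hQ'⟩ := Polynomial.dvd_iff_isRoot.2 hQ1
          refine ⟨aeval ψ Q' x, 2, 1, ?_, ?_⟩
          · intro hcon
            apply hz0
            rw [hz, hQ', map_mul, Module.End.mul_apply]
            simp [hcon]
          · have h3 : ψ (aeval ψ Q' x) - aeval ψ Q' x = z := by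
              rw [hz, hQ', map_mul, Module.End.mul_apply]
              simp
            have h4 : ψ (aeval ψ Q' x) = aeval ψ Q' x + z := by rw [← h3]; abel
            rw [h4, map_add, h4, hψz, two_smul, one_smul]
            abel
        · refine ih Q hQdeg hQ0 hirrQ (x - (Q.eval 1)⁻¹ • z) ?_ ?_
          · rw [map_sub, map_smul, hfix, ← hz, smul_smul, inv_mul_cancel₀ hQ1, one_smul,
              sub_self]
          · intro hcon
            apply hne
            rw [map_sub, map_smul, hψz] at hcon
            exact sub_left_injective hcon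
    · -- the generic case
      have hsum : aeval ψ g z = g.coeff 0 • z + g.coeff 1 • ψ z + g.coeff 2 • ψ (ψ z) := by
        have h3 : g.natDegree < 3 := by omega
        rw [Polynomial.aeval_eq_sum_range' h3, Finset.sum_range_succ, Finset.sum_range_succ,
          Finset.sum_range_one]
        simp only [LinearMap.add_apply, LinearMap.smul_apply, pow_zero, pow_one, pow_two]
        rfl
      rw [hgz] at hsum
      by_cases hc2 : g.coeff 2 = 0
      · have hdeg1 : g.natDegree = 1 := by
          by_contra h
          have h2 : g.natDegree = 2 := by omega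
          have : g.leadingCoeff ≠ 0 := leadingCoeff_ne_zero.2 hg0
          rw [leadingCoeff, h2] at this
          exact this hc2
        have hc1 : g.coeff 1 ≠ 0 := by
          have : g.leadingCoeff ≠ 0 := leadingCoeff_ne_zero.2 hg0
          rwa [leadingCoeff, hdeg1] at this
        rw [hc2, zero_smul, add_zero] at hsum
        have h5 : ψ z = (-((g.coeff 1)⁻¹ * g.coeff 0)) • z := by
          have h6 : g.coeff 1 • ψ z = - (g.coeff 0 • z) := by
            rw [eq_neg_iff_add_eq_zero, add_comm]
            exact hsum.symm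
          have h7 : ψ z = (g.coeff 1)⁻¹ • (g.coeff 1 • ψ z) := by
            rw [smul_smul, inv_mul_cancel₀ hc1, one_smul]
          rw [h7, h6, smul_neg, smul_smul, neg_smul]
        refine ⟨z, -((g.coeff 1)⁻¹ * g.coeff 0), 0, hψz, ?_⟩
        rw [zero_smul, sub_zero]
        conv_lhs => rw [h5, map_smul]
      · refine ⟨z, -((g.coeff 2)⁻¹ * g.coeff 1), (g.coeff 2)⁻¹ * g.coeff 0, hψz, ?_⟩
        have h6 : g.coeff 2 • ψ (ψ z) = - (g.coeff 0 • z) - g.coeff 1 • ψ z := by
          rw [eq_sub_iff_add_eq, eq_neg_iff_add_eq_zero, hsum]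
          abel
        have h7 : ψ (ψ z) = (g.coeff 2)⁻¹ • (g.coeff 2 • ψ (ψ z)) := by
          rw [smul_smul, inv_mul_cancel₀ hc2, one_smul]
        rw [h7, h6, smul_sub, smul_neg, smul_smul, smul_smul, neg_smul]
        abel

end

end Pool.Agent.Helper4.GAL
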