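import Pool.Agent.Helper4.GAL.Base

/-!
Helpers for problem MP_249799_al: nonabelian subgroups of the unit group.
-/

set_option autoImplicit false

namespace Pool.Agent.Helper4.GAL

open Algebra Polynomial Module
open scoped commutatorElement

section

variable {F D : Type*} [Field F] [DivisionRing D] [Algebra F D]

/-- A set of commuting elements normalised, but not centralised, by `e`. -/
theorem good_of_normal_set (halg : Algebra.IsAlgebraic F D) (S : Set D)
    (hS : ∀ x ∈ S, ∀ y ∈ S, x * y = y * x) (e : D) (he : e ≠ 0)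
    (h : ∀ x ∈ S, e * x * e⁻¹ ∈ S) (b : D) (hb : b ∈ S) (hne : e * b ≠ b * e) : Good F D := by
  refine good_of_conj_set halg S hS e he (fun x hx => ⟨e * x * e⁻¹,
    Algebra.subset_adjoin (h x hx), ?_⟩) b hb hne
  rw [mul_assoc, inv_mul_cancel₀ he, mul_one]

/-- A root of unity outside the centre. -/
theorem good_of_torsion (halg : Algebra.IsAlgebraic F D) (u : D)
    (hu : u ∉ Set.range (algebraMap F D)) (n : ℕ) (hn : 0 < n) (hun : u ^ n = 1) :
    Good F D := by
  have hS : ∀ x ∈ ({u} : Set D), ∀ z ∈ ({u} : Set D), x * z = z * x := by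
    intro x hx z hz
    rw [Set.mem_singleton_iff.1 hx, Set.mem_singleton_iff.1 hz]
  have hcomm : ∀ x ∈ Algebra.adjoin F {u}, ∀ z ∈ Algebra.adjoin F {u}, x * z = z * x := by
    intro x hx z hz
    exact congrArg Subtype.val
      ((Algebra.isMulCommutative_adjoin F hS).is_comm.comm ⟨x, hx⟩ ⟨z, hz⟩)
  refine ⟨Algebra.adjoin F {u}, hcomm, ?_⟩
  let _ : CommRing (Algebra.adjoin F {u}) :=
    { (inferInstance : Ring (Algebra.adjoin F {u})) with
      mul_comm := fun u v => Subtype.ext (hcomm u u.2 v v.2) }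
  let _ : Field (Algebra.adjoin F {u}) := Field.ofIsUnitOrEqZero (fun a => by
    by_cases ha : a = 0
    · exact Or.inr ha
    · left
      have h1 : IsIntegral F (a : D) := (halg.isAlgebraic (a : D)).isIntegral
      have h2 : ((a : D))⁻¹ ∈ Algebra.adjoin F {u} := h1.inv_mem a.2
      have ha' : (a : D) ≠ 0 := fun h => ha (Subtype.ext h)
      exact ⟨⟨a, ⟨_, h2⟩, Subtype.ext (mul_inv_cancel₀ ha'), Subtype.ext (inv_mul_cancel₀ ha')⟩, rfl⟩)
  set u' : Algebra.adjoin F {u} := ⟨u, Algebra.self_mem_adjoin_singleton F u⟩ with hu'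
  have hfo : IsOfFinOrder u' := isOfFinOrder_iff_pow_eq_one.2 ⟨n, hn, Subtype.ext hun⟩
  set m := orderOf u' with hm
  have hmpos : 0 < m := hfo.orderOf_pos
  have hprim : IsPrimitiveRoot u' m := IsPrimitiveRoot.orderOf u'
  have htop : Algebra.adjoin F ({u'} : Set (Algebra.adjoin F {u})) = ⊤ := by
    rw [_root_.eq_top_iff]
    rintro ⟨x, hx⟩ -
    have h2 := AlgHom.map_adjoin (Algebra.adjoin F {u}).val ({u'} : Set (Algebra.adjoin F {u}))
    rw [Set.image_singleton] at h2
    have h3 : x ∈ (Algebra.adjoin F ({u'} : Set (Algebra.adjoin F {u}))).map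
        (Algebra.adjoin F {u}).val := by
      rw [h2]
      exact hx
    obtain ⟨y, hy, hyx⟩ := h3
    have : y = ⟨x, hx⟩ := Subtype.ext hyx
    rw [← this]
    exact hy
  have : NeZero m := ⟨hmpos.ne'⟩
  have hcyc : IsCyclotomicExtension {m} F (Algebra.adjoin F {u}) := by
    refine (IsCyclotomicExtension.iff_singleton m F _).2 ⟨⟨u', hprim⟩, ?_⟩
    intro x
    have hx : x ∈ Algebra.adjoin F ({u'} : Set (Algebra.adjoin F {u})) := by
      rw [htop]
      exact Algebra.mem_top
    refine Algebra.adjoin_mono ?_ hx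
    intro y hy
    rw [Set.mem_singleton_iff.1 hy]
    exact hprim.pow_eq_one
  have hgal : IsGalois F (Algebra.adjoin F {u}) := IsCyclotomicExtension.isGalois {m} F _
  have hfin : FiniteDimensional F (Algebra.adjoin F {u}) :=
    .of_fg ((halg.isAlgebraic u).isIntegral).fg_adjoin_singleton
  by_contra hcon
  push Not at hcon
  have hcard : Nat.card (Algebra.adjoin F {u} ≃ₐ[F] Algebra.adjoin F {u}) = 1 := by
    rw [Nat.card_eq_one_iff_unique]
    exact ⟨⟨fun a b => by rw [hcon a, hcon b]⟩, ⟨AlgEquiv.refl⟩⟩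
  have hrank : finrank F (Algebra.adjoin F {u}) = 1 := by
    rw [← IsGalois.card_aut_eq_finrank F (Algebra.adjoin F {u})]
    exact hcard
  apply hu
  have hbot : (⊥ : Subalgebra F (Algebra.adjoin F {u})) = ⊤ :=
    Subalgebra.bot_eq_top_of_finrank_eq_one hrank
  have hmem : u' ∈ (⊥ : Subalgebra F (Algebra.adjoin F {u})) := by
    rw [hbot]
    exact Algebra.mem_top
  obtain ⟨r, hr⟩ := Algebra.mem_bot.1 hmem
  exact ⟨r, congrArg Subtype.val hr⟩

/-- Two noncommuting units whose commutator has finite order. -/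
theorem good_of_torsion_commutator (halg : Algebra.IsAlgebraic F D) (g h : Dˣ)
    (hgh : g * h ≠ h * g) (n : ℕ) (hn : 0 < n) (hun : (g * h * g⁻¹ * h⁻¹) ^ n = 1) :
    Good F D := by
  set u := g * h * g⁻¹ * h⁻¹ with hu
  by_cases huF : (u : D) ∈ Set.range (algebraMap F D)
  · obtain ⟨r, hr⟩ := huF
    refine good_of_conj_one halg (h : D) ((u : D) * h) (g : D) g.ne_zero ?_ ?_ ?_
    · rw [← Units.val_mul, ← Units.val_mul, ← Units.val_mul, hu]
      congr 1
      group
    · rw [← hr]
      exact Subalgebra.mul_mem _ (Subalgebra.algebraMap_mem _ _)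
        (Algebra.self_mem_adjoin_singleton F _)
    · intro hcon
      apply hgh
      have h1 : u * h = h := Units.ext hcon
      have h2 : u = 1 := mul_eq_right.1 h1
      rw [hu] at h2
      calc g * h = (g * h * g⁻¹ * h⁻¹) * (h * g) := by group
        _ = h * g := by rw [h2, one_mul]
  · refine good_of_torsion halg (u : D) huF n hn ?_
    rw [← Units.val_pow_eq_pow_val, hun, Units.val_one]

/-- A soluble group with nonabelian image in the unit group. -/
theorem good_of_solvable (halg : Algebra.IsAlgebraic F D) {G : Type*} [Group G] [Group.IsSolvable G]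
    (φ : G →* Dˣ) (hne : ∃ g h : G, φ g * φ h ≠ φ h * φ g) : Good F D := by
  classical
  obtain ⟨n, hn⟩ := (Group.isSolvable_def G).1 inferInstance
  have hex : ∃ k, ∀ g ∈ derivedSeries G k, ∀ h ∈ derivedSeries G k,
      φ g * φ h = φ h * φ g := by
    refine ⟨n, ?_⟩
    intro g hg h hh
    rw [hn, Subgroup.mem_bot] at hg hh
    rw [hg, hh]
  set k := Nat.find hex with hk
  have hspec := Nat.find_spec hex
  have hmin := fun m (hm : m < k) => Nat.find_min hex hm
  have hk0 : k ≠ 0 := by
    intro h0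
    obtain ⟨g, h, hgh⟩ := hne
    apply hgh
    have : ∀ x : G, x ∈ derivedSeries G k := by
      intro x
      rw [h0, derivedSeries_zero]
      exact Subgroup.mem_top x
    exact hspec g (this g) h (this h)
  obtain ⟨m, hm⟩ : ∃ m, k = m + 1 := ⟨k - 1, by omega⟩
  have hnc := hmin m (by omega)
  push Not at hnc
  obtain ⟨g, hg, h, hh, hgh⟩ := hnc
  -- the image of the derived group
  let S : Set D := {x : D | ∃ a ∈ derivedSeries G k, x = (φ a : D)}
  have hScomm : ∀ x ∈ S, ∀ y ∈ S, x * y = y * x := by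
    rintro _ ⟨a, ha, rfl⟩ _ ⟨b, hb, rfl⟩
    rw [← Units.val_mul, ← Units.val_mul, hspec a ha b hb]
  have hnorm : (derivedSeries G k).Normal := derivedSeries_normal G k
  by_cases hcentral : ∀ c ∈ derivedSeries G m, ∀ a ∈ derivedSeries G k,
      φ c * φ a = φ a * φ c
  · -- the commutator of `g` and `h` is central
    have hu : ⁅g, h⁆ ∈ derivedSeries G k := by
      rw [hm, derivedSeries_succ]
      exact Subgroup.commutator_mem_commutator hg hh
    have hle : ∀ a ∈ derivedSeries G k, a ∈ derivedSeries G m := by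
      intro a ha
      rw [hm] at ha
      exact derivedSeries_antitone G (Nat.le_succ m) ha
    have hug : φ g * φ ⁅g, h⁆ = φ ⁅g, h⁆ * φ g := hcentral g hg _ hu
    have huh : φ h * φ ⁅g, h⁆ = φ ⁅g, h⁆ * φ h := hcentral h hh _ hu
    have hconj : φ g * φ h = φ ⁅g, h⁆ * φ h * φ g := by
      rw [← map_mul, ← map_mul, ← map_mul]
      congr 1
      rw [commutatorElement_def]
      group
    have hhmem : (φ h : D) ∈ Algebra.adjoin F ({(φ h : D), (φ ⁅g, h⁆ : D)} : Set D) :=
      Algebra.subset_adjoin (Set.mem_insert _ _)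
    have humem : (φ ⁅g, h⁆ : D) ∈ Algebra.adjoin F ({(φ h : D), (φ ⁅g, h⁆ : D)} : Set D) :=
      Algebra.subset_adjoin (Set.mem_insert_of_mem _ (Set.mem_singleton _))
    refine good_of_conj_set halg {(φ h : D), (φ ⁅g, h⁆ : D)} ?_ (φ g : D) (φ g).ne_zero ?_
      (φ h : D) (Set.mem_insert _ _) ?_
    · intro x hx y hy
      rcases hx with hx | hx <;> rcases hy with hy | hy
      · rw [hx, hy]
      · rw [hx, Set.mem_singleton_iff.1 hy, ← Units.val_mul, ← Units.val_mul, huh]
      · rw [Set.mem_singleton_iff.1 hx, hy, ← Units.val_mul, ← Units.val_mul, huh]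
      · rw [Set.mem_singleton_iff.1 hx, Set.mem_singleton_iff.1 hy]
    · intro x hx
      rcases hx with hx | hx
      · rw [hx]
        refine ⟨(φ ⁅g, h⁆ : D) * (φ h : D), Subalgebra.mul_mem _ humem hhmem, ?_⟩
        rw [← Units.val_mul, ← Units.val_mul, ← Units.val_mul, hconj]
      · rw [Set.mem_singleton_iff.1 hx]
        refine ⟨(φ ⁅g, h⁆ : D), humem, ?_⟩
        rw [← Units.val_mul, ← Units.val_mul, hug]
    · intro hcon
      apply hgh
      exact Units.ext hcon
  · push Not at hcentral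
    obtain ⟨c, hc, a, ha, hca⟩ := hcentral
    refine good_of_normal_set halg S hScomm (φ c : D) (φ c).ne_zero ?_ (φ a : D) ⟨a, ha, rfl⟩ ?_
    · rintro _ ⟨b, hb, rfl⟩
      refine ⟨c * b * c⁻¹, hnorm.conj_mem b hb c, ?_⟩
      rw [map_mul, map_mul, map_inv, Units.val_mul, Units.val_mul, Units.val_inv_eq_inv_val]
    · intro hcon
      apply hca
      exact Units.ext hcon

/-- A virtually soluble nonabelian group of units. -/
theorem good_of_virtually_solvable (halg : Algebra.IsAlgebraic F D) (G : Subgroup Dˣ)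
    (N : Subgroup G) [N.Normal] [N.FiniteIndex] [Group.IsSolvable N]
    (hne : ∃ g ∈ G, ∃ h ∈ G, g * h ≠ h * g) : Good F D := by
  by_cases hN : ∃ g h : N, (G.subtype.comp N.subtype) g * (G.subtype.comp N.subtype) h
      ≠ (G.subtype.comp N.subtype) h * (G.subtype.comp N.subtype) g
  · exact good_of_solvable halg (G.subtype.comp N.subtype) hN
  push Not at hN
  have hN' : ∀ a ∈ N, ∀ b ∈ N, a * b = b * a := by
    intro a ha b hb
    exact Subtype.ext (hN ⟨a, ha⟩ ⟨b, hb⟩)
  by_cases hcentral : ∀ c : G, ∀ a ∈ N, c * a = a * c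
  · have hcen : N ≤ Subgroup.center G := by
      intro a ha
      rw [Subgroup.mem_center_iff]
      exact fun c => hcentral c a ha
    have hfi : (Subgroup.center G).FiniteIndex := Subgroup.finiteIndex_of_le hcen
    have hfinq : Finite (G ⧸ Subgroup.center G) := inferInstance
    have hcs : Finite (commutatorSet G) := by
      have hsub : commutatorSet G ⊆ Set.range (fun q : (G ⧸ Subgroup.center G) ×
          (G ⧸ Subgroup.center G) => ⁅q.1.out, q.2.out⁆) := by
        rintro _ ⟨a, b, rfl⟩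
        refine ⟨(QuotientGroup.mk a, QuotientGroup.mk b), ?_⟩
        obtain ⟨z, hz⟩ := QuotientGroup.mk_out_eq_mul (Subgroup.center G) a
        obtain ⟨w, hw⟩ := QuotientGroup.mk_out_eq_mul (Subgroup.center G) b
        show ⁅(QuotientGroup.mk a : G ⧸ Subgroup.center G).out,
          (QuotientGroup.mk b : G ⧸ Subgroup.center G).out⁆ = ⁅a, b⁆
        rw [hz, hw, commutatorElement_def, commutatorElement_def]
        have hz' := fun t : G => (Subgroup.mem_center_iff.1 z.2 t)
        have hw' := fun t : G => (Subgroup.mem_center_iff.1 w.2 t)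
        have e1 : a * (z : G) * (b * (w : G)) * (a * (z : G))⁻¹ * (b * (w : G))⁻¹
            = a * ((z : G) * b) * (w : G) * (z : G)⁻¹ * a⁻¹ * (w : G)⁻¹ * b⁻¹ := by group
        rw [e1, ← hz' b]
        have e2 : a * (b * (z : G)) * (w : G) * (z : G)⁻¹ * a⁻¹ * (w : G)⁻¹ * b⁻¹
            = a * b * ((z : G) * (w : G)) * (z : G)⁻¹ * a⁻¹ * (w : G)⁻¹ * b⁻¹ := by group
        rw [e2, hw' (z : G)]
        have e3 : a * b * ((w : G) * (z : G)) * (z : G)⁻¹ * a⁻¹ * (w : G)⁻¹ * b⁻¹
            = a * b * ((w : G) * a⁻¹) * (w : G)⁻¹ * b⁻¹ := by group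
        rw [e3, ← hw' a⁻¹]
        group
      exact Set.Finite.subset (Set.finite_range _) hsub
    have hfc : Finite (commutator G) := inferInstance
    obtain ⟨g, hg, h, hh, hgh⟩ := hne
    have hmem : ⁅(⟨g, hg⟩ : G), (⟨h, hh⟩ : G)⁆ ∈ commutator G :=
      Subgroup.commutator_mem_commutator (Subgroup.mem_top _) (Subgroup.mem_top _)
    have hfo : IsOfFinOrder (⟨_, hmem⟩ : commutator G) := isOfFinOrder_of_finite _
    obtain ⟨n, hn, hpow⟩ := isOfFinOrder_iff_pow_eq_one.1 hfo
    refine good_of_torsion_commutator halg g h hgh n hn ?_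
    have h1 := congrArg (fun t : commutator G => ((t : G) : Dˣ)) hpow
    exact h1
  · push Not at hcentral
    obtain ⟨c, a, ha, hca⟩ := hcentral
    have hnorm : N.Normal := inferInstance
    let S : Set D := {x : D | ∃ b : G, b ∈ N ∧ x = ((b : Dˣ) : D)}
    refine good_of_normal_set halg S ?_ ((c : Dˣ) : D) (c : Dˣ).ne_zero ?_ ((a : Dˣ) : D)
      ⟨a, ha, rfl⟩ ?_
    · rintro _ ⟨x, hx, rfl⟩ _ ⟨y, hy, rfl⟩
      have := congrArg (fun t : G => ((t : Dˣ) : D)) (hN' x hx y hy)
      exact this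
    · rintro _ ⟨b, hb, rfl⟩
      refine ⟨c * b * c⁻¹, hnorm.conj_mem b hb c, ?_⟩
      rw [Subgroup.coe_mul, Subgroup.coe_mul, Subgroup.coe_inv, Units.val_mul, Units.val_mul,
        Units.val_inv_eq_inv_val]
    · intro hcon
      apply hca
      apply Subtype.ext
      exact Units.ext hcon

end

end Pool.Agent.Helper4.GAL
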