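import Pool.Agent.Helper4.GAL.Rel

/-!
Helpers for problem MP_249799_al: a proper inclusion of degree at most four between
finite-dimensional commutative subalgebras.
-/

set_option autoImplicit false

namespace Pool.Agent.Helper4.GAL

open Algebra Polynomial Module

section

variable {F D : Type*} [Field F] [DivisionRing D] [Algebra F D]

theorem exists_relation (L M : Subalgebra F D) (hLM : L ≤ M) [FiniteDimensional F L]
    [FiniteDimensional F M] (hdim : finrank F M < 5 * finrank F L) (a : D) (ha : a ∈ M) :
    ∃ l : Fin 5 → L, l ≠ 0 ∧ ∑ i : Fin 5, (l i : D) * a ^ (i : ℕ) = 0 := by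
  let T : (Fin 5 → L) →ₗ[F] D :=
    ∑ i : Fin 5, (LinearMap.mulRight F (a ^ (i : ℕ))) ∘ₗ L.val.toLinearMap ∘ₗ LinearMap.proj i
  have hT : ∀ l : Fin 5 → L, T l = ∑ i : Fin 5, (l i : D) * a ^ (i : ℕ) := by
    intro l
    simp only [T, LinearMap.sum_apply]
    rfl
  have hTM : ∀ l : Fin 5 → L, T l ∈ Subalgebra.toSubmodule M := by
    intro l
    rw [hT]
    exact Subalgebra.sum_mem _ fun i _ => Subalgebra.mul_mem _ (hLM (l i).2)
      (Subalgebra.pow_mem _ ha _)
  let T' : (Fin 5 → L) →ₗ[F] (Subalgebra.toSubmodule M) := LinearMap.codRestrict _ T hTM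
  have hfin : FiniteDimensional F (Subalgebra.toSubmodule M) := inferInstanceAs
    (FiniteDimensional F M)
  have hrank : finrank F (Subalgebra.toSubmodule M) < finrank F (Fin 5 → L) := by
    rw [Module.finrank_pi_fintype, Finset.sum_const, Finset.card_univ, Fintype.card_fin,
      smul_eq_mul]
    exact hdim
  have hker := LinearMap.ker_ne_bot_of_finrank_lt (f := T') hrank
  obtain ⟨l, hl, hl0⟩ := Submodule.exists_mem_ne_zero_of_ne_bot hker
  refine ⟨l, hl0, ?_⟩
  rw [← hT]
  exact congrArg Subtype.val (LinearMap.mem_ker.1 hl)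

theorem exists_primitive (halg : Algebra.IsAlgebraic F D) (L : Subalgebra F D)
    (hL : ∀ x ∈ L, ∀ y ∈ L, x * y = y * x) [FiniteDimensional F L]
    (hsep : ∀ a : D, (minpoly F a).Separable) : ∃ b : D, L = Algebra.adjoin F {b} := by
  let _ : CommRing L := { (inferInstance : Ring L) with
    mul_comm := fun x y => Subtype.ext (hL x x.2 y y.2) }
  let _ : Field L := Field.ofIsUnitOrEqZero (fun a => by
    by_cases ha : a = 0
    · exact Or.inr ha
    · left
      have h1 : IsIntegral F (a : D) := (halg.isAlgebraic (a : D)).isIntegral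
      have h2 : ((a : D))⁻¹ ∈ L := h1.inv_mem a.2
      have ha' : (a : D) ≠ 0 := fun h => ha (Subtype.ext h)
      exact ⟨⟨a, ⟨_, h2⟩, Subtype.ext (mul_inv_cancel₀ ha'), Subtype.ext (inv_mul_cancel₀ ha')⟩, rfl⟩)
  have hLalg : Algebra.IsAlgebraic F L := ⟨fun x => by
    have := halg.isAlgebraic (x : D)
    exact (isAlgebraic_algHom_iff L.val Subtype.val_injective).1 this⟩
  have hLsep : Algebra.IsSeparable F L := ⟨fun x => by
    have h1 : minpoly F (L.val x) = minpoly F x :=
      minpoly.algHom_eq L.val Subtype.val_injective x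
    have h2 := hsep (x : D)
    rw [IsSeparable, ← h1]
    exact h2⟩
  obtain ⟨α, hα⟩ := Field.exists_primitive_element F L
  refine ⟨(α : D), ?_⟩
  have hint : IsIntegral F α := (hLalg.isAlgebraic α).isIntegral
  have h1 : Algebra.adjoin F {α} = ⊤ := by
    rw [← IntermediateField.adjoin_simple_toSubalgebra_of_isAlgebraic hint.isAlgebraic, hα]
    rfl
  have h2 := AlgHom.map_adjoin L.val ({α} : Set L)
  rw [h1, Algebra.map_top, Subalgebra.range_val, Set.image_singleton] at h2
  exact h2

/-- A proper inclusion of degree at most four. -/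
theorem good_of_step
    (hcen : ∀ x : D, (∀ y : D, y * x = x * y) → x ∈ Set.range (algebraMap F D))
    (halg : Algebra.IsAlgebraic F D) (L M : Subalgebra F D) (hLM : L < M)
    (hM : ∀ x ∈ M, ∀ y ∈ M, x * y = y * x) (hfin : FiniteDimensional F M)
    (hdim : finrank F M ≤ 4 * finrank F L) : Good F D := by
  by_cases hsep : ∀ a : D, (minpoly F a).Separable
  · have hfinL : FiniteDimensional F L :=
      FiniteDimensional.of_injective (Subalgebra.inclusion hLM.le).toLinearMap
        (Subalgebra.inclusion_injective hLM.le)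
    have hLcomm : ∀ x ∈ L, ∀ y ∈ L, x * y = y * x := fun x hx y hy =>
      hM x (hLM.le hx) y (hLM.le hy)
    obtain ⟨b, hb⟩ := exists_primitive halg L hLcomm hsep
    have hbL : b ∈ L := by rw [hb]; exact Algebra.self_mem_adjoin_singleton F b
    obtain ⟨a, haM, haL⟩ := SetLike.exists_of_lt hLM
    have hpos : 0 < finrank F L := finrank_pos
    obtain ⟨l, hl0, hl⟩ := exists_relation L M hLM.le (by omega) a haM
    have key : ∀ m0 m1 m2 m3 m4 : L, m4 ≠ 0 →
        (m0 : D) + m1 * a + m2 * (a * a) + m3 * (a * a * a) + m4 * (a * a * a * a) = 0 →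
        Good F D := by
      intro m0 m1 m2 m3 m4 hm4 hrel
      have hm4' : (m4 : D) ≠ 0 := fun h => hm4 (Subtype.ext h)
      have hinv : (m4 : D)⁻¹ ∈ L := ((halg.isAlgebraic (m4 : D)).isIntegral).inv_mem m4.2
      have h1 : (m4 : D)⁻¹ * m4 = 1 := inv_mul_cancel₀ hm4'
      refine good_rel hcen halg L b hb a haL (hM a haM b (hLM.le hbL))
        (-((m4 : D)⁻¹ * m3)) ((m4 : D)⁻¹ * m2) (-((m4 : D)⁻¹ * m1)) ((m4 : D)⁻¹ * m0)
        (L.neg_mem (L.mul_mem hinv m3.2)) (L.mul_mem hinv m2.2)
        (L.neg_mem (L.mul_mem hinv m1.2)) (L.mul_mem hinv m0.2) ?_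
      linear_combination (norm := noncomm_ring) (m4 : D)⁻¹ * hrel - h1 * (a * a * a * a)
    rw [Fin.sum_univ_five] at hl
    have hl' : (l 0 : D) + l 1 * a + l 2 * (a * a) + l 3 * (a * a * a)
        + l 4 * (a * a * a * a) = 0 := by
      have e0 : (((0 : Fin 5) : ℕ)) = 0 := rfl
      have e1 : (((1 : Fin 5) : ℕ)) = 1 := rfl
      have e2 : (((2 : Fin 5) : ℕ)) = 2 := rfl
      have e3 : (((3 : Fin 5) : ℕ)) = 3 := rfl
      have e4 : (((4 : Fin 5) : ℕ)) = 4 := rfl
      rw [e0, e1, e2, e3, e4] at hl
      linear_combination (norm := noncomm_ring) hl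
    by_cases h4 : l 4 = 0
    · rw [h4] at hl'
      by_cases h3 : l 3 = 0
      · rw [h3] at hl'
        by_cases h2 : l 2 = 0
        · rw [h2] at hl'
          by_cases h1 : l 1 = 0
          · rw [h1] at hl'
            exfalso
            apply hl0
            have h0 : l 0 = 0 := by
              apply Subtype.ext
              have : (l 0 : D) = 0 := by
                simpa using hl'
              exact this
            funext i
            fin_cases i
            · exact h0
            · exact h1
            · exact h2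
            · exact h3
            · exact h4
          · refine key 0 0 0 (l 0) (l 1) h1 ?_
            linear_combination (norm := (simp only [ZeroMemClass.coe_zero]; noncomm_ring))
              hl' * (a * a * a)
        · refine key 0 0 (l 0) (l 1) (l 2) h2 ?_
          linear_combination (norm := (simp only [ZeroMemClass.coe_zero]; noncomm_ring))
            hl' * (a * a)
      · refine key 0 (l 0) (l 1) (l 2) (l 3) h3 ?_
        linear_combination (norm := (simp only [ZeroMemClass.coe_zero]; noncomm_ring))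
          hl' * a
    · exact key _ _ _ _ _ h4 hl'
  · push Not at hsep
    obtain ⟨a, ha⟩ := hsep
    exact good_of_insep hcen halg a ha

end

end Pool.Agent.Helper4.GAL
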