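import Pool.Agent.Helper4.GAL.Semi

/-!
Helpers for problem MP_249799_al: the theorem on small invariant subspaces of automorphisms and
anti-automorphisms.
-/

set_option autoImplicit false

namespace Pool.Agent.Helper4.GAL

open Algebra Polynomial Module

section

variable {F D : Type*} [Field F] [DivisionRing D] [Algebra F D]

theorem good_of_two_dim
    (hcen : ∀ x : D, (∀ y : D, y * x = x * y) → x ∈ Set.range (algebraMap F D))
    (halg : Algebra.IsAlgebraic F D) {B E : Type*} [Field B] [Algebra F B]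
    [FiniteDimensional F B] [DivisionRing E] [Algebra F E] [Algebra B E] [IsScalarTower F B E]
    (ι : E →ₐ[F] D) (ψ : E →ₗ[B] E) (h1 : ψ 1 = 1)
    (hmul : (∀ u v, ψ (u * v) = ψ u * ψ v) ∨ (∀ u v, ψ (u * v) = ψ v * ψ u))
    (y : E) (α β : B) (hy : ψ y ≠ y) (h2 : ψ (ψ y) = α • ψ y - β • y) : Good F D := by
  have hinj : Function.Injective ι := ι.toRingHom.injective
  have halgFE : Algebra.IsAlgebraic F E := ⟨fun x =>
    (isAlgebraic_algHom_iff ι hinj).1 (halg.isAlgebraic (ι x))⟩
  have halgE : Algebra.IsAlgebraic B E := Algebra.IsAlgebraic.tower_top (K := F) B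
  have hy0 : y ≠ 0 := by
    rintro rfl
    rw [map_zero] at hy
    exact hy rfl
  have hψy0 : ψ y ≠ 0 := by
    intro h0
    rcases hmul with hmul | hmul
    · have := hmul y y⁻¹
      rw [mul_inv_cancel₀ hy0, h1, h0, zero_mul] at this
      exact one_ne_zero this
    · have := hmul y y⁻¹
      rw [mul_inv_cancel₀ hy0, h1, h0, mul_zero] at this
      exact one_ne_zero this
  have hψinv : ψ y⁻¹ = (ψ y)⁻¹ := by
    rcases hmul with hmul | hmul
    · have := hmul y⁻¹ y
      rw [inv_mul_cancel₀ hy0, h1] at this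
      exact eq_inv_of_mul_eq_one_left this.symm
    · have := hmul y y⁻¹
      rw [mul_inv_cancel₀ hy0, h1] at this
      exact eq_inv_of_mul_eq_one_left this.symm
  set ρ := y⁻¹ * ψ y with hρ
  have hρ0 : ρ ≠ 0 := mul_ne_zero (inv_ne_zero hy0) hψy0
  have hρinv : ρ⁻¹ = (ψ y)⁻¹ * y := by
    rw [hρ, mul_inv_rev, inv_inv]
  have hyρ : ψ y = y * ρ := by
    rw [hρ, ← mul_assoc, mul_inv_cancel₀ hy0, one_mul]
  by_cases hρB : ρ ∈ Set.range (algebraMap B E)
  · obtain ⟨l, hl⟩ := hρB
    refine good_of_tower ι (good_of_semi halgE ψ h1 hmul y ?_ hy)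
    rw [hyρ, ← hl]
    exact Subalgebra.mul_mem _ (Algebra.self_mem_adjoin_singleton B y)
      (Subalgebra.algebraMap_mem _ _)
  · -- the auxiliary map
    obtain ⟨κ, hκ1, hκmul, hκρ⟩ : ∃ κ : E →ₗ[B] E, κ 1 = 1 ∧
        ((∀ u v, κ (u * v) = κ u * κ v) ∨ (∀ u v, κ (u * v) = κ v * κ u)) ∧
        κ ρ = algebraMap B E α - β • ρ⁻¹ := by
      rcases hmul with hmul | hmul
      · refine ⟨ψ, h1, Or.inl hmul, ?_⟩
        rw [hρ, hmul, hψinv, h2, mul_sub, mul_smul_comm, inv_mul_cancel₀ hψy0,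
          mul_smul_comm, ← hρ, hρinv, Algebra.algebraMap_eq_smul_one]
      · refine ⟨(LinearMap.mulLeft B y⁻¹) ∘ₗ (LinearMap.mulRight B y) ∘ₗ ψ, ?_, Or.inr ?_, ?_⟩
        · show y⁻¹ * (ψ 1 * y) = 1
          rw [h1, one_mul, inv_mul_cancel₀ hy0]
        · intro u v
          show y⁻¹ * (ψ (u * v) * y) = (y⁻¹ * (ψ v * y)) * (y⁻¹ * (ψ u * y))
          rw [hmul]
          have h3 : y * y⁻¹ = 1 := mul_inv_cancel₀ hy0
          linear_combination (norm := noncomm_ring) - (y⁻¹ * ψ v * h3 * ψ u * y)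
        · show y⁻¹ * (ψ ρ * y) = _
          have h3 : ψ ρ = ψ (ψ y) * (ψ y)⁻¹ := by
            rw [hρ, hmul, hψinv]
          rw [h3, h2, hρinv, sub_mul, smul_mul_assoc, mul_inv_cancel₀ hψy0, smul_mul_assoc,
            sub_mul, smul_mul_assoc, one_mul, smul_mul_assoc, mul_sub, mul_smul_comm,
            inv_mul_cancel₀ hy0, mul_smul_comm, mul_assoc y, ← mul_assoc y⁻¹ y,
            inv_mul_cancel₀ hy0, one_mul, Algebra.algebraMap_eq_smul_one]
    by_cases hfix : κ ρ = ρ
    · -- `ρ` is quadratic over `B`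
      rw [hκρ] at hfix
      have hq : ρ * ρ - algebraMap B E α * ρ + algebraMap B E β = 0 := by
        have h3 : (algebraMap B E α - β • ρ⁻¹) * ρ = ρ * ρ := by rw [hfix]
        rw [sub_mul, smul_mul_assoc, inv_mul_cancel₀ hρ0,
          ← Algebra.algebraMap_eq_smul_one] at h3
        rw [← h3]
        abel
      by_cases hsep : ∀ a : D, (minpoly F a).Separable
      · let j : B →ₐ[F] D := ι.comp (IsScalarTower.toAlgHom F B E)
        have hjL : ∀ c : B, ι (algebraMap B E c) ∈ j.range := fun c => ⟨c, rfl⟩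
        have hLcomm : ∀ x ∈ j.range, ∀ z ∈ j.range, x * z = z * x := by
          rintro _ ⟨x, rfl⟩ _ ⟨z, rfl⟩
          show j x * j z = j z * j x
          rw [← map_mul, mul_comm, map_mul]
        have hfin : FiniteDimensional F j.range :=
          Module.Finite.of_surjective j.rangeRestrict.toLinearMap j.rangeRestrict_surjective
        obtain ⟨b, hb⟩ := exists_primitive halg j.range hLcomm hsep
        have hbL : b ∈ j.range := by rw [hb]; exact Algebra.self_mem_adjoin_singleton F b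
        obtain ⟨b', hb'⟩ := hbL
        refine good_rel hcen halg j.range b hb (ι ρ) ?_ ?_ (ι (algebraMap B E α))
          (ι (algebraMap B E β)) 0 0 (hjL α) (hjL β) (Subalgebra.zero_mem _)
          (Subalgebra.zero_mem _) ?_
        · rintro ⟨c, hc⟩
          apply hρB
          exact ⟨c, hinj hc⟩
        · rw [← hb']
          show ι ρ * ι (algebraMap B E b') = ι (algebraMap B E b') * ι ρ
          rw [← map_mul, ← map_mul, Algebra.commutes]
        · have h4 : ι ρ * ι ρ - ι (algebraMap B E α) * ι ρ + ι (algebraMap B E β) = 0 := by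
            rw [← map_mul, ← map_mul, ← map_sub, ← map_add, hq, map_zero]
          linear_combination (norm := noncomm_ring) h4 * ι ρ * ι ρ
      · push Not at hsep
        obtain ⟨a, ha⟩ := hsep
        exact good_of_insep hcen halg a ha
    · refine good_of_tower ι (good_of_semi halgE κ hκ1 hκmul ρ ?_ hfix)
      rw [hκρ]
      exact Subalgebra.sub_mem _ (Subalgebra.algebraMap_mem _ _)
        (Subalgebra.smul_mem _ ((halgE.isAlgebraic ρ).isIntegral.inv_mem_adjoin) _)

/-- The polynomial form. -/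
theorem good_of_small_factors
    (hcen : ∀ x : D, (∀ y : D, y * x = x * y) → x ∈ Set.range (algebraMap F D))
    (halg : Algebra.IsAlgebraic F D) {B E : Type*} [Field B] [Algebra F B]
    [FiniteDimensional F B] [DivisionRing E] [Algebra F E] [Algebra B E] [IsScalarTower F B E]
    (ι : E →ₐ[F] D) (ψ : E →ₗ[B] E) (h1 : ψ 1 = 1)
    (hmul : (∀ u v, ψ (u * v) = ψ u * ψ v) ∨ (∀ u v, ψ (u * v) = ψ v * ψ u))
    (P : B[X]) (hP : P ≠ 0) (hirr : ∀ g : B[X], Irreducible g → g ∣ P → g.natDegree ≤ 2)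
    (x : E) (hx : aeval ψ P x = 0) (hne : ψ x ≠ x) : Good F D := by
  obtain ⟨y, α, β, hy, h2⟩ := exists_two_dim ψ P.natDegree P le_rfl hP hirr x hx hne
  exact good_of_two_dim hcen halg ι ψ h1 hmul y α β hy h2

end

end Pool.Agent.Helper4.GAL
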